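import Pool.Agent.Lib.MP_7b9603_alIL.Map

/-!
# Even generators: definitions

`Good K π`: for every `H → Q` such that `K[H]` has no zero divisors, the group algebra of the fiber
product `G ×_Q H` has none.  `pa α`: the action on the free group by permutations of the basis.
`Ret`: the retraction of an Artin group which kills a generator with even labels.
-/

set_option autoImplicit false

namespace Pool.Agent.Lib.MP_7b9603_alEV

open SPH

universe u w

/-- The fiber product of `π : G → Q` and `ψ : H → Q`. -/
abbrev fib {G H Q : Type u} [Group G] [Group H] [Group Q] (π : G →* Q) (ψ : H →* Q) :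
    Subgroup (G × H) :=
  (π.comp (MonoidHom.fst G H)).eqLocus (ψ.comp (MonoidHom.snd G H))

/-- The second projection of the fiber product. -/
def fsnd {G H Q : Type u} [Group G] [Group H] [Group Q] (π : G →* Q) (ψ : H →* Q) :
    fib π ψ →* H :=
  (MonoidHom.snd G H).comp (fib π ψ).subtype

/-- Base changes of `π` preserve the absence of zero divisors in group algebras over `K`. -/
def Good (K : Type w) [Field K] {G Q : Type u} [Group G] [Group Q] (π : G →* Q) : Prop :=
  ∀ (H : Type u) [Group H] (ψ : H →* Q), NoZeroDivisors (MonoidAlgebra K H) →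
    NoZeroDivisors (MonoidAlgebra K (fib π ψ))

/-- The automorphisms of the free group given by permutations of the basis. -/
def pa {B Q : Type u} [Group Q] (α : Q →* Equiv.Perm B) : Q →* MulAut (FreeGroup B) where
  toFun q := FreeGroup.freeGroupCongr (α q)
  map_one' := by
    ext x
    simp
  map_mul' p q := by
    ext x
    simp [FreeGroup.map.comp, Function.comp_def]

theorem pa_of {B Q : Type u} [Group Q] (α : Q →* Equiv.Perm B) (q : Q) (b : B) :
    pa α q (FreeGroup.of b) = FreeGroup.of (α q b) := by
  simp [pa]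

/-- The extension of `Q` by the free group on a `Q`-set. -/
abbrev PE {B Q : Type u} [Group Q] (α : Q →* Equiv.Perm B) : Type u := FreeGroup B ⋊[pa α] Q

theorem altProd_one_left {A : Type*} [Monoid A] (a : A) (n : ℕ) :
    altProd 1 a (2 * n) = a ^ n ∧ altProd a 1 (2 * n) = a ^ n := by
  induction n with
  | zero => exact ⟨by rw [mul_zero, pow_zero]; rfl, by rw [mul_zero, pow_zero]; rfl⟩
  | succ n ih =>
    have h : 2 * (n + 1) = 2 * n + 1 + 1 := by ring
    rw [h]
    constructor
    · change 1 * (a * altProd 1 a (2 * n)) = _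
      rw [ih.1, one_mul, pow_succ']
    · change a * (1 * altProd a 1 (2 * n)) = _
      rw [ih.2, one_mul, pow_succ']

theorem altProd_one_even {A : Type*} [Monoid A] (a : A) (m : ℕ) (h : Even m) :
    altProd 1 a m = altProd a 1 m := by
  obtain ⟨n, rfl⟩ := h
  rw [← two_mul, (altProd_one_left a n).1, (altProd_one_left a n).2]

open Classical in
/-- The retraction which kills the generator `s` with even labels; `N` is the restriction of `M` to
the other generators. -/
noncomputable def Ret {S : Type u} (M : CoxeterMatrix S) (s : S)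
    (N : CoxeterMatrix {x : S // x ≠ s}) (hN : ∀ a b, N a b = M a.1 b.1)
    (he : ∀ z, z ≠ s → Even (M s z)) : ArtinGroup M →* ArtinGroup N :=
  ArtinGroup.lift M (fun a => if h : a = s then 1 else agen N ⟨a, h⟩) (by
    intro a b hab
    by_cases ha : a = s
    · by_cases hb : b = s
      · rw [dif_pos ha, dif_pos hb]
      · rw [dif_pos ha, dif_neg hb, ha]
        exact altProd_one_even _ _ (he b hb)
    · by_cases hb : b = s
      · rw [dif_neg ha, dif_pos hb, hb, show M a s = M s a from M.symmetric _ _]
        exact (altProd_one_even _ _ (he a ha)).symm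
      · rw [dif_neg ha, dif_neg hb]
        have h1 := agen_rel N ⟨a, ha⟩ ⟨b, hb⟩ (by rw [hN]; exact hab)
        rw [hN] at h1
        exact h1)

open Classical in
theorem Ret_agen {S : Type u} (M : CoxeterMatrix S) (s : S)
    (N : CoxeterMatrix {x : S // x ≠ s}) (hN : ∀ a b, N a b = M a.1 b.1)
    (he : ∀ z, z ≠ s → Even (M s z)) (a : S) :
    Ret M s N hN he (agen M a) = if h : a = s then 1 else agen N ⟨a, h⟩ :=
  ArtinGroup.lift_agen _ _ _ _

theorem Ret_self {S : Type u} (M : CoxeterMatrix S) (s : S)
    (N : CoxeterMatrix {x : S // x ≠ s}) (hN : ∀ a b, N a b = M a.1 b.1)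
    (he : ∀ z, z ≠ s → Even (M s z)) : Ret M s N hN he (agen M s) = 1 := by
  rw [Ret_agen, dif_pos rfl]

theorem Ret_ne {S : Type u} (M : CoxeterMatrix S) (s : S)
    (N : CoxeterMatrix {x : S // x ≠ s}) (hN : ∀ a b, N a b = M a.1 b.1)
    (he : ∀ z, z ≠ s → Even (M s z)) (a : S) (h : a ≠ s) :
    Ret M s N hN he (agen M a) = agen N ⟨a, h⟩ := by
  rw [Ret_agen, dif_neg h]

/-- The restriction of a Coxeter matrix to the generators other than `s`. -/
def rs {S : Type u} (M : CoxeterMatrix S) (s : S) : CoxeterMatrix {x : S // x ≠ s} where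
  M := fun a b => M a.1 b.1
  isSymm := by
    ext a b
    exact M.symmetric b.1 a.1
  diagonal := fun a => M.diagonal a.1
  off_diagonal := fun a b h => M.off_diagonal a.1 b.1 (fun h' => h (Subtype.ext h'))

theorem rs_apply {S : Type u} (M : CoxeterMatrix S) (s : S) (a b : {x : S // x ≠ s}) :
    rs M s a b = M a.1 b.1 := rfl

open Classical in
/-- The matrix `M` with the label of `s`, `t` replaced by `2`. -/
noncomputable def set2 {S : Type u} (M : CoxeterMatrix S) (s t : S) (hst : s ≠ t) :
    CoxeterMatrix S where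
  M := fun a b => if (a = s ∧ b = t) ∨ (a = t ∧ b = s) then 2 else M a b
  isSymm := by
    refine Matrix.IsSymm.ext fun i j => ?_
    by_cases h : (i = s ∧ j = t) ∨ (i = t ∧ j = s)
    · have h' : (j = s ∧ i = t) ∨ (j = t ∧ i = s) := by
        rcases h with ⟨h1, h2⟩ | ⟨h1, h2⟩
        · exact Or.inr ⟨h2, h1⟩
        · exact Or.inl ⟨h2, h1⟩
      rw [if_pos h, if_pos h']
    · have h' : ¬ ((j = s ∧ i = t) ∨ (j = t ∧ i = s)) := by
        rintro (⟨h1, h2⟩ | ⟨h1, h2⟩)
        · exact h (Or.inr ⟨h2, h1⟩)
        · exact h (Or.inl ⟨h2, h1⟩)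
      rw [if_neg h, if_neg h']
      exact M.symmetric j i
  diagonal := fun i => by
    have h : ¬ ((i = s ∧ i = t) ∨ (i = t ∧ i = s)) := by
      rintro (⟨h1, h2⟩ | ⟨h1, h2⟩)
      · exact hst (h1.symm.trans h2)
      · exact hst (h2.symm.trans h1)
    rw [if_neg h]
    exact M.diagonal i
  off_diagonal := fun i j hij => by
    by_cases h : (i = s ∧ j = t) ∨ (i = t ∧ j = s)
    · rw [if_pos h]
      decide
    · rw [if_neg h]
      exact M.off_diagonal i j hij

theorem set2_pos {S : Type u} (M : CoxeterMatrix S) (s t : S) (hst : s ≠ t) {a b : S}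
    (h : (a = s ∧ b = t) ∨ (a = t ∧ b = s)) : set2 M s t hst a b = 2 := if_pos h

theorem set2_neg {S : Type u} (M : CoxeterMatrix S) (s t : S) (hst : s ≠ t) {a b : S}
    (h : ¬ ((a = s ∧ b = t) ∨ (a = t ∧ b = s))) : set2 M s t hst a b = M a b := if_neg h

theorem altProd_comm {A : Type*} [Monoid A] (a b : A) (h : a * b = b * a) (m : ℕ) (hm : Even m) :
    altProd a b m = altProd b a m := by
  obtain ⟨n, rfl⟩ := hm
  induction n with
  | zero => rfl
  | succ n ih =>
    have h2 : n + 1 + (n + 1) = n + n + 1 + 1 := by ring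
    rw [h2]
    change a * (b * altProd a b (n + n)) = b * (a * altProd b a (n + n))
    rw [ih, ← mul_assoc, ← mul_assoc, h]

/-- The homomorphism which is the identity on the generators. -/
theorem exists_idHom {S : Type u} (M N : CoxeterMatrix S)
    (h : ∀ a b, M a b ≠ 0 → N a b = M a b ∨ (N a b = 2 ∧ Even (M a b))) :
    ∃ p : ArtinGroup M →* ArtinGroup N, ∀ a, p (agen M a) = agen N a := by
  refine ⟨ArtinGroup.lift M (agen N) ?_, fun a => ArtinGroup.lift_agen _ _ _ _⟩
  intro a b hab
  rcases h a b hab with h1 | ⟨h1, h2⟩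
  · rw [← h1]
    exact agen_rel N a b (by rw [h1]; exact hab)
  · refine altProd_comm _ _ ?_ _ h2
    have h3 := agen_rel N a b (by rw [h1]; decide)
    rw [h1] at h3
    change agen N a * (agen N b * 1) = agen N b * (agen N a * 1) at h3
    rw [mul_one, mul_one] at h3
    exact h3

open Pool.Agent.Lib.MP_7b9603_alCF in
/-- A homomorphism of Artin groups defined by a map of the generators is injective on the standard
parabolic subgroups on which the map is injective and preserves the labels. -/
theorem par_inj {S S' : Type u} (M : CoxeterMatrix S) (N : CoxeterMatrix S') (g : S → S')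
    (R : Set S) (hg : Set.InjOn g R) (hR : ∀ a ∈ R, ∀ b ∈ R, N (g a) (g b) = M a b)
    (φ : ArtinGroup M →* ArtinGroup N) (hφ : ∀ a ∈ R, φ (agen M a) = agen N (g a)) :
    ∀ x ∈ Subgroup.closure (agen M '' R), φ x = 1 → x = 1 := by
  intro x hx h1
  have e1 : ∀ a b : R, M (a : S) (b : S) = sm M R a b := fun _ _ => rfl
  have e2 : ∀ a b : R, N (g (a : S)) (g (b : S)) = sm M R a b := fun a b => hR a a.2 b b.2
  have hinj : Function.Injective (fun a : R => g (a : S)) := by
    intro a b hab
    exact Subtype.ext (hg a.2 b.2 hab)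
  have h2 : Subgroup.closure (agen M '' R) ≤ (incA (sm M R) M Subtype.val e1).range := by
    rw [Subgroup.closure_le]
    rintro _ ⟨r, hr, rfl⟩
    exact ⟨agen (sm M R) ⟨r, hr⟩, incA_agen _ _ _ _ _⟩
  obtain ⟨y, rfl⟩ := h2 hx
  have h3 : φ.comp (incA (sm M R) M Subtype.val e1) =
      incA (sm M R) N (fun a : R => g (a : S)) e2 := by
    apply artin_hom_ext
    intro a
    exact (congrArg φ (incA_agen (sm M R) M Subtype.val e1 a)).trans
      ((hφ a a.2).trans (incA_agen (sm M R) N (fun a : R => g (a : S)) e2 a).symm)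
  have h4 : incA (sm M R) N (fun a : R => g (a : S)) e2 y = 1 := by
    rw [← h3]
    exact h1
  have h5 := incA_injective (sm M R) N (fun a : R => g (a : S)) hinj e2
  have h6 : y = 1 := h5 (by rw [h4, map_one])
  rw [h6, map_one]

end Pool.Agent.Lib.MP_7b9603_alEV
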