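import Pool.Agent.Lib.MP_7b9603_alEV.Pe

/-!
# Even generators: the extension by the free group on a `Q`-set is good

The fiber product of `F(B) ⋊ Q → Q` and `ψ : H → Q` embeds in `F(B) ⋊ H`.
-/

set_option autoImplicit false

namespace Pool.Agent.Lib.MP_7b9603_alEV

open SPH Pool.Agent.Lib.MP_7b9603_alIL

universe u w

variable {K : Type w} [Field K]

/-- The fiber product embeds in the extension of `H` by the same free group. -/
private def gp_hom {B Q H : Type u} [Group Q] [Group H] (α : Q →* Equiv.Perm B) (ψ : H →* Q) :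
    fib (SemidirectProduct.rightHom : PE α →* Q) ψ →* PE (α.comp ψ) where
  toFun x := ⟨x.1.1.left, x.1.2⟩
  map_one' := by
    ext <;> rfl
  map_mul' x y := by
    have hx : x.1.1.right = ψ x.1.2 := x.2
    apply SemidirectProduct.ext
    · change x.1.1.left * pa α x.1.1.right y.1.1.left =
        x.1.1.left * pa (α.comp ψ) x.1.2 y.1.1.left
      rw [hx]
      rfl
    · rfl

private theorem gp_inj {B Q H : Type u} [Group Q] [Group H] (α : Q →* Equiv.Perm B)
    (ψ : H →* Q) : Function.Injective (gp_hom α ψ) := by
  intro x y hxy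
  have hx : x.1.1.right = ψ x.1.2 := x.2
  have hy : y.1.1.right = ψ y.1.2 := y.2
  have h1 : x.1.1.left = y.1.1.left :=
    congrArg (fun z : PE (α.comp ψ) => z.left) hxy
  have h2 : x.1.2 = y.1.2 := congrArg (fun z : PE (α.comp ψ) => z.right) hxy
  apply Subtype.ext
  apply Prod.ext
  · apply SemidirectProduct.ext
    · exact h1
    · rw [hx, hy, h2]
  · exact h2

/-- The projection of the extension of `Q` by the free group on a `Q`-set is good. -/
theorem good_pe {B Q : Type u} [Group Q] (α : Q →* Equiv.Perm B) :
    Good K (SemidirectProduct.rightHom : PE α →* Q) := by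
  intro H _ ψ hH
  have h1 : NoZeroDivisors (MonoidAlgebra K (PE (α.comp ψ))) := dom_pe (α.comp ψ) hH
  exact Function.Injective.noZeroDivisors
    (MonoidAlgebra.mapDomainRingHom K (gp_hom α ψ))
    (MonoidAlgebra.mapDomain_injective (gp_inj α ψ)) (map_zero _) (map_mul _)

end Pool.Agent.Lib.MP_7b9603_alEV
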