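import Pool.Agent.Lib.MP_7b9603_alEV.GoodBasic
import Pool.Agent.Lib.MP_7b9603_alEV.GoodPe

/-!
# Even generators: labels two and infinity
-/

set_option autoImplicit false

namespace Pool.Agent.Lib.MP_7b9603_alEV

open SPH Pool.Agent.Lib.MP_7b9603_alIL

universe u w

section

variable {S : Type u} (M : CoxeterMatrix S) (s : S) (N : CoxeterMatrix {x : S // x ≠ s})

/-- The subgroup generated by the generators which commute with `s`. -/
private def e0_Z : Subgroup (ArtinGroup N) :=
  Subgroup.closure (agen N '' {z | M s z.1 = 2})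

/-- The action on the cosets. -/
private abbrev e0_α : ArtinGroup N →* Equiv.Perm (ArtinGroup N ⧸ e0_Z M s N) :=
  MulAction.toPermHom (ArtinGroup N) (ArtinGroup N ⧸ e0_Z M s N)

/-- The base point. -/
private abbrev e0_b : ArtinGroup N ⧸ e0_Z M s N := QuotientGroup.mk 1

private theorem e0_two {A : Type*} [Monoid A] (a b : A) (h : a * b = b * a) :
    altProd a b 2 = altProd b a 2 := by
  change a * (b * 1) = b * (a * 1)
  rw [mul_one, mul_one, h]

private theorem e0_of_two (a b : S) (h : M a b = 2) :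
    agen M a * agen M b = agen M b * agen M a := by
  have h3 := agen_rel M a b (by rw [h]; decide)
  rw [h] at h3
  change agen M a * (agen M b * 1) = agen M b * (agen M a * 1) at h3
  rwa [mul_one, mul_one] at h3

private theorem e0_comm (z : {x : S // x ≠ s}) (hz : M s z.1 = 2) :
    (SemidirectProduct.inl (FreeGroup.of (e0_b M s N)) : PE (e0_α M s N)) *
      SemidirectProduct.inr (agen N z) =
    SemidirectProduct.inr (agen N z) *
      SemidirectProduct.inl (FreeGroup.of (e0_b M s N)) := by
  have h1 : pa (e0_α M s N) (agen N z) (FreeGroup.of (e0_b M s N)) =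
      FreeGroup.of (e0_b M s N) := by
    rw [pa_of]
    congr 1
    change agen N z • (e0_b M s N) = e0_b M s N
    change (QuotientGroup.mk (agen N z * 1) : ArtinGroup N ⧸ e0_Z M s N) = QuotientGroup.mk 1
    rw [mul_one, QuotientGroup.eq, mul_one]
    exact Subgroup.inv_mem _ (Subgroup.subset_closure ⟨z, hz, rfl⟩)
  have h2 := SemidirectProduct.inl_aut (φ := pa (e0_α M s N)) (agen N z)
    (FreeGroup.of (e0_b M s N))
  rw [h1] at h2
  rw [map_inv] at h2
  exact eq_mul_inv_iff_mul_eq.1 h2

open Classical in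
/-- The embedding. -/
private noncomputable def e0_ι (hN : ∀ a b, N a b = M a.1 b.1)
    (h2 : ∀ z, z ≠ s → M s z = 0 ∨ M s z = 2) : ArtinGroup M →* PE (e0_α M s N) :=
  ArtinGroup.lift M (fun a => if h : a = s then
      SemidirectProduct.inl (FreeGroup.of (e0_b M s N)) else
      SemidirectProduct.inr (agen N ⟨a, h⟩)) (by
    intro a b hab
    by_cases ha : a = s
    · by_cases hb : b = s
      · rw [dif_pos ha, dif_pos hb]
      · rw [dif_pos ha, dif_neg hb]
        rw [ha] at hab ⊢
        have h3 := (h2 b hb).resolve_left hab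
        rw [h3]
        exact e0_two _ _ (e0_comm M s N ⟨b, hb⟩ h3)
    · by_cases hb : b = s
      · rw [dif_neg ha, dif_pos hb]
        rw [hb, M.symmetric] at hab ⊢
        have h3 := (h2 a ha).resolve_left hab
        rw [h3]
        exact e0_two _ _ (e0_comm M s N ⟨a, ha⟩ h3).symm
      · rw [dif_neg ha, dif_neg hb]
        have h1 := agen_rel N ⟨a, ha⟩ ⟨b, hb⟩ (by rw [hN]; exact hab)
        rw [hN] at h1
        have h3 := congrArg (SemidirectProduct.inr : ArtinGroup N →* PE (e0_α M s N)) h1
        rw [altProd_map, altProd_map] at h3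
        exact h3)

open Pool.Agent.Lib.MP_7b9603_alCF in
/-- The inclusion of the standard parabolic subgroup. -/
private def e0_j (hN : ∀ a b, N a b = M a.1 b.1) : ArtinGroup N →* ArtinGroup M :=
  incA N M Subtype.val (fun a b => (hN a b).symm)

open Pool.Agent.Lib.MP_7b9603_alCF in
private theorem e0_j_agen (hN : ∀ a b, N a b = M a.1 b.1) (z : {x : S // x ≠ s}) :
    e0_j M s N hN (agen N z) = agen M z.1 :=
  incA_agen _ _ _ _ _

private theorem e0_cent (hN : ∀ a b, N a b = M a.1 b.1) (x : ArtinGroup N)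
    (hx : x ∈ e0_Z M s N) :
    e0_j M s N hN x * agen M s * (e0_j M s N hN x)⁻¹ = agen M s := by
  have h1 : e0_Z M s N ≤ (Subgroup.centralizer {agen M s}).comap (e0_j M s N hN) := by
    rw [e0_Z, Subgroup.closure_le]
    rintro _ ⟨z, hz, rfl⟩
    change e0_j M s N hN (agen N z) ∈ Subgroup.centralizer {agen M s}
    rw [Subgroup.mem_centralizer_singleton_iff, e0_j_agen]
    exact (e0_of_two M s z.1 hz).symm
  have h3 := h1 hx
  change e0_j M s N hN x ∈ Subgroup.centralizer {agen M s} at h3
  rw [Subgroup.mem_centralizer_singleton_iff] at h3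
  rw [mul_inv_eq_iff_eq_mul]
  exact h3

/-- The map of the basis. -/
private def e0_f (hN : ∀ a b, N a b = M a.1 b.1) (b : ArtinGroup N ⧸ e0_Z M s N) :
    ArtinGroup M :=
  Quotient.liftOn' b (fun q => e0_j M s N hN q * agen M s * (e0_j M s N hN q)⁻¹) (by
    intro q q' h
    rw [QuotientGroup.leftRel_apply] at h
    have h1 := e0_cent M s N hN _ h
    rw [map_mul, map_inv] at h1
    have h2 : e0_j M s N hN q * ((e0_j M s N hN q)⁻¹ * e0_j M s N hN q' * agen M s *
        ((e0_j M s N hN q)⁻¹ * e0_j M s N hN q')⁻¹) * (e0_j M s N hN q)⁻¹ =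
        e0_j M s N hN q * agen M s * (e0_j M s N hN q)⁻¹ := by rw [h1]
    rw [← h2]
    group)

private theorem e0_f_mk (hN : ∀ a b, N a b = M a.1 b.1) (q : ArtinGroup N) :
    e0_f M s N hN (QuotientGroup.mk q) =
      e0_j M s N hN q * agen M s * (e0_j M s N hN q)⁻¹ := rfl

/-- The left inverse. -/
private def e0_ρ (hN : ∀ a b, N a b = M a.1 b.1) : PE (e0_α M s N) →* ArtinGroup M :=
  SemidirectProduct.lift (FreeGroup.lift (e0_f M s N hN)) (e0_j M s N hN) (by
    intro g
    ext b
    induction b using QuotientGroup.induction_on with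
    | H q =>
      change FreeGroup.lift (e0_f M s N hN) (pa (e0_α M s N) g (FreeGroup.of _)) =
        e0_j M s N hN g * FreeGroup.lift (e0_f M s N hN) (FreeGroup.of _) * (e0_j M s N hN g)⁻¹
      rw [pa_of, FreeGroup.lift_apply_of, FreeGroup.lift_apply_of]
      change e0_f M s N hN (QuotientGroup.mk (g * q)) = _
      rw [e0_f_mk, e0_f_mk, map_mul]
      group)

end

/-- E0.lean -/
theorem even0 {S : Type u} (M : CoxeterMatrix S) (s : S) (N : CoxeterMatrix {x : S // x ≠ s})
    (hN : ∀ a b, N a b = M a.1 b.1) (he : ∀ z, z ≠ s → Even (M s z))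
    (h2 : ∀ z, z ≠ s → M s z = 0 ∨ M s z = 2) (K : Type w) [Field K] :
    Good K (Ret M s N hN he) := by
  classical
  have hι : ∀ a, e0_ι M s N hN h2 (agen M a) = if h : a = s then
      SemidirectProduct.inl (FreeGroup.of (e0_b M s N)) else
      SemidirectProduct.inr (agen N ⟨a, h⟩) := fun a => by
    rw [e0_ι, ArtinGroup.lift_agen]
  have h3 : (e0_ρ M s N hN).comp (e0_ι M s N hN h2) = MonoidHom.id _ := by
    apply Pool.Agent.Lib.MP_7b9603_alCF.artin_hom_ext
    intro a
    rw [MonoidHom.comp_apply, MonoidHom.id_apply, hι]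
    by_cases ha : a = s
    · rw [dif_pos ha, e0_ρ, SemidirectProduct.lift_inl, FreeGroup.lift_apply_of, e0_f_mk, map_one,
        one_mul, inv_one, mul_one, ha]
    · rw [dif_neg ha, e0_ρ, SemidirectProduct.lift_inr, e0_j_agen]
  have h4 : Function.Injective (e0_ι M s N hN h2) := by
    intro x y hxy
    have h5 := congrArg (e0_ρ M s N hN) hxy
    rw [← MonoidHom.comp_apply, ← MonoidHom.comp_apply, h3] at h5
    exact h5
  have h5 : (SemidirectProduct.rightHom : PE (e0_α M s N) →* ArtinGroup N).comp
      (e0_ι M s N hN h2) = Ret M s N hN he := by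
    apply Pool.Agent.Lib.MP_7b9603_alCF.artin_hom_ext
    intro a
    rw [MonoidHom.comp_apply, hι, Ret_agen]
    by_cases ha : a = s
    · rw [dif_pos ha, dif_pos ha, SemidirectProduct.rightHom_inl]
    · rw [dif_neg ha, dif_neg ha, SemidirectProduct.rightHom_inr]
  refine good_inj (e0_ι M s N hN h2) h4 (fun g => ?_) (good_pe (K := K) (e0_α M s N))
  rw [← h5]
  rfl

end Pool.Agent.Lib.MP_7b9603_alEV
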