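import Pool.Agent.Lib.MP_7b9603_alEV.Defs

/-!
# Even generators: basic properties of `Good`
-/

set_option autoImplicit false

namespace Pool.Agent.Lib.MP_7b9603_alEV

open SPH Pool.Agent.Lib.MP_7b9603_alIL

universe u w

section

variable {K : Type w} [Field K]

/-- The absence of zero divisors in group algebras passes to groups that embed. -/
private theorem gb_inj {G G' : Type u} [Group G] [Group G'] (f : G →* G')
    (hf : Function.Injective f) (h : NoZeroDivisors (MonoidAlgebra K G')) :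
    NoZeroDivisors (MonoidAlgebra K G) :=
  Function.Injective.noZeroDivisors (MonoidAlgebra.mapDomainRingHom K f)
    (MonoidAlgebra.mapDomain_injective hf) (map_zero _) (map_mul _)

private theorem gb_mem {G H Q : Type u} [Group G] [Group H] [Group Q] {π : G →* Q}
    {ψ : H →* Q} (x : fib π ψ) : π x.1.1 = ψ x.1.2 := x.2

theorem good_dom {G Q : Type u} [Group G] [Group Q] {π : G →* Q} (h : Good K π)
    (hQ : NoZeroDivisors (MonoidAlgebra K Q)) : NoZeroDivisors (MonoidAlgebra K G) := by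
  have h1 := h Q (MonoidHom.id Q) hQ
  let f : G →* fib π (MonoidHom.id Q) :=
    ((MonoidHom.id G).prod π).codRestrict _ (fun g => rfl)
  refine gb_inj f (fun a b hab => ?_) h1
  have h2 := congrArg (fun z : fib π (MonoidHom.id Q) => z.1.1) hab
  exact h2

theorem good_inj {G G' Q : Type u} [Group G] [Group G'] [Group Q] {π : G →* Q} {π' : G' →* Q}
    (ι : G →* G') (hι : Function.Injective ι) (hπ : ∀ g, π' (ι g) = π g) (h : Good K π') :
    Good K π := by
  intro H _ ψ hH
  have h1 := h H ψ hH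
  let f : fib π ψ →* fib π' ψ :=
    ((ι.prodMap (MonoidHom.id H)).comp (fib π ψ).subtype).codRestrict _ (fun x => by
      change π' (ι x.1.1) = ψ x.1.2
      rw [hπ, gb_mem x])
  refine gb_inj f (fun a b hab => ?_) h1
  have h2 : ι a.1.1 = ι b.1.1 := congrArg (fun z : fib π' ψ => z.1.1) hab
  have h3 : a.1.2 = b.1.2 := congrArg (fun z : fib π' ψ => z.1.2) hab
  exact Subtype.ext (Prod.ext (hι h2) h3)

theorem good_comp {G G' Q : Type u} [Group G] [Group G'] [Group Q] {π : G →* G'} {π' : G' →* Q}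
    (h : Good K π) (h' : Good K π') : Good K (π'.comp π) := by
  intro H _ ψ hH
  have h1 := h' H ψ hH
  have h2 := h (fib π' ψ) ((MonoidHom.fst G' H).comp (fib π' ψ).subtype) h1
  let g : fib (π'.comp π) ψ →* fib π' ψ :=
    ((π.prodMap (MonoidHom.id H)).comp (fib (π'.comp π) ψ).subtype).codRestrict _ (fun x => by
      change π' (π x.1.1) = ψ x.1.2
      exact x.2)
  let f : fib (π'.comp π) ψ →* fib π ((MonoidHom.fst G' H).comp (fib π' ψ).subtype) :=
    ((((MonoidHom.fst G H).comp (fib (π'.comp π) ψ).subtype)).prod g).codRestrict _ (fun x => rfl)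
  refine gb_inj f (fun a b hab => ?_) h2
  have h3 : a.1.1 = b.1.1 :=
    congrArg (fun z : fib π ((MonoidHom.fst G' H).comp (fib π' ψ).subtype) => z.1.1) hab
  have h4 : a.1.2 = b.1.2 :=
    congrArg (fun z : fib π ((MonoidHom.fst G' H).comp (fib π' ψ).subtype) => z.1.2.1.2) hab
  exact Subtype.ext (Prod.ext h3 h4)

theorem good_base {G H Q : Type u} [Group G] [Group H] [Group Q] {π : G →* Q} (h : Good K π)
    (ψ : H →* Q) : Good K (fsnd π ψ) := by
  intro H' _ ψ' hH
  have h1 := h H' (ψ.comp ψ') hH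
  let f : fib (fsnd π ψ) ψ' →* fib π (ψ.comp ψ') :=
    ((((MonoidHom.fst G H).comp (fib π ψ).subtype).prodMap (MonoidHom.id H')).comp
      (fib (fsnd π ψ) ψ').subtype).codRestrict _ (fun x => by
        have h2 : x.1.1.1.2 = ψ' x.1.2 := x.2
        have h3 : π x.1.1.1.1 = ψ x.1.1.1.2 := x.1.1.2
        change π x.1.1.1.1 = ψ (ψ' x.1.2)
        rw [h3, h2])
  refine gb_inj f (fun a b hab => ?_) h1
  have h2 : a.1.1.1.1 = b.1.1.1.1 := congrArg (fun z : fib π (ψ.comp ψ') => z.1.1) hab
  have h3 : a.1.2 = b.1.2 := congrArg (fun z : fib π (ψ.comp ψ') => z.1.2) hab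
  have h4 : a.1.1.1.2 = ψ' a.1.2 := a.2
  have h5 : b.1.1.1.2 = ψ' b.1.2 := b.2
  have h6 : a.1.1.1.2 = b.1.1.1.2 := by rw [h4, h5, h3]
  exact Subtype.ext (Prod.ext (Subtype.ext (Prod.ext h2 h6)) h3)

end

end Pool.Agent.Lib.MP_7b9603_alEV
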