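import Pool.Agent.Lib.MP_7b9603_alEV.Magnus
import Pool.Agent.Lib.MP_7b9603_alEV.GoodBasic
import Pool.Agent.Lib.MP_7b9603_alEV.GoodPe

/-!
# Even generators: homomorphisms injective on two standard parabolic subgroups
-/

set_option autoImplicit false

namespace Pool.Agent.Lib.MP_7b9603_alEV

open SPH Pool.Agent.Lib.MP_7b9603_alIL

universe u w

private theorem sp_comm {B Q : Type u} [Group Q] (α : Q →* Equiv.Perm B) (q : Q) (c : B)
    (h : α q c = c) :
    (SemidirectProduct.inl (FreeGroup.of c) : PE α) * SemidirectProduct.inr q *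
      (SemidirectProduct.inl (FreeGroup.of c))⁻¹ = SemidirectProduct.inr q := by
  have h1 : (SemidirectProduct.inl (pa α q (FreeGroup.of c)) : PE α) =
      SemidirectProduct.inr q * SemidirectProduct.inl (FreeGroup.of c) *
        SemidirectProduct.inr q⁻¹ := SemidirectProduct.inl_aut (φ := pa α) q (FreeGroup.of c)
  rw [pa_of, h, map_inv, eq_mul_inv_iff_mul_eq] at h1
  rw [mul_inv_eq_iff_eq_mul]
  exact h1

/-- The two cases of a finite label. -/
private theorem sp_cases {S : Type u} (M : CoxeterMatrix S) (S1 S2 : Set S)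
    (hcov : ∀ a, a ∈ S1 ∨ a ∈ S2) (hsep : ∀ a b, a ∉ S2 → b ∉ S1 → M a b = 0) (a b : S)
    (hab : M a b ≠ 0) : (a ∈ S1 ∧ b ∈ S1) ∨ (a ∈ S2 ∧ b ∈ S2) := by
  by_cases ha : a ∈ S2
  · by_cases hb : b ∈ S2
    · exact Or.inr ⟨ha, hb⟩
    · refine Or.inl ⟨?_, (hcov b).resolve_right hb⟩
      by_contra h
      apply hab
      rw [show M a b = M b a from M.symmetric _ _]
      exact hsep b a hb h
  · refine Or.inl ⟨(hcov a).resolve_right ha, ?_⟩
    by_contra h
    exact hab (hsep a b ha h)

/-- If `φ` is injective on two standard parabolic subgroups which cover the generators, with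
infinite labels between the rest, then `φ` is good. -/
theorem sep_good {S : Type u} (M : CoxeterMatrix S) (S1 S2 : Set S)
    (hcov : ∀ a, a ∈ S1 ∨ a ∈ S2) (hsep : ∀ a b, a ∉ S2 → b ∉ S1 → M a b = 0)
    {Q : Type u} [Group Q] (φ : ArtinGroup M →* Q)
    (h1 : ∀ x ∈ Subgroup.closure (agen M '' S1), φ x = 1 → x = 1)
    (h2 : ∀ x ∈ Subgroup.closure (agen M '' S2), φ x = 1 → x = 1)
    (K : Type w) [Field K] : Good K φ := by
  classical
  have hZX : Subgroup.closure (agen M '' (S1 ∩ S2)) ≤ Subgroup.closure (agen M '' S1) :=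
    Subgroup.closure_mono (Set.image_mono Set.inter_subset_left)
  have hZY : Subgroup.closure (agen M '' (S1 ∩ S2)) ≤ Subgroup.closure (agen M '' S2) :=
    Subgroup.closure_mono (Set.image_mono Set.inter_subset_right)
  have hgen : Subgroup.closure (agen M '' S1) ⊔ Subgroup.closure (agen M '' S2) = ⊤ := by
    rw [eq_top_iff, ← (PresentedGroup.closure_range_of (artinRelM M)), Subgroup.closure_le]
    rintro _ ⟨r, rfl⟩
    rcases hcov r with hr | hr
    · exact (le_sup_left : Subgroup.closure (agen M '' S1) ≤ _)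
        (Subgroup.subset_closure ⟨r, hr, rfl⟩)
    · exact (le_sup_right : Subgroup.closure (agen M '' S2) ≤ _)
        (Subgroup.subset_closure ⟨r, hr, rfl⟩)
  have hZm' : ∀ r, r ∈ S1 → r ∈ S2 → φ (agen M r) ∈
      (Subgroup.closure (agen M '' (S1 ∩ S2))).map φ := fun r hr hr' =>
    ⟨agen M r, Subgroup.subset_closure ⟨r, ⟨hr, hr'⟩, rfl⟩, rfl⟩
  generalize Subgroup.closure (agen M '' (S1 ∩ S2)) = Z at hZX hZY hZm'
  let c : Q ⧸ Z.map φ := ((1 : Q) : Q ⧸ Z.map φ)
  let α : Q →* Equiv.Perm (Q ⧸ Z.map φ) := MulAction.toPermHom Q (Q ⧸ Z.map φ)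
  let t : PE α := SemidirectProduct.inl (FreeGroup.of c)
  let ψ : Q →* PE α := (MulAut.conj t).toMonoidHom.comp SemidirectProduct.inr
  have hψ : ∀ q, ψ q = t * SemidirectProduct.inr q * t⁻¹ := fun q => rfl
  have hfix : ∀ q ∈ Z.map φ, α q c = c := by
    intro q hq
    have h3 : α q c = ((q * 1 : Q) : Q ⧸ Z.map φ) := rfl
    rw [h3, mul_one]
    refine QuotientGroup.eq.2 ?_
    rw [mul_one]
    exact inv_mem hq
  let σ : S → PE α := fun r =>
    if r ∈ S1 then SemidirectProduct.inr (φ (agen M r)) else ψ (φ (agen M r))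
  have σX : ∀ r, r ∈ S1 → σ r = SemidirectProduct.inr (φ (agen M r)) := fun r hr => if_pos hr
  have σY : ∀ r, r ∈ S2 → σ r = ψ (φ (agen M r)) := by
    intro r hr
    by_cases h : r ∈ S1
    · rw [σX r h, hψ]
      exact (sp_comm α _ c (hfix _ (hZm' r h hr))).symm
    · exact if_neg h
  have hrel : ∀ a b, M a b ≠ 0 →
      altProd (σ a) (σ b) (M a b) = altProd (σ b) (σ a) (M a b) := by
    intro a b hab
    have h3 : altProd (φ (agen M a)) (φ (agen M b)) (M a b) =
        altProd (φ (agen M b)) (φ (agen M a)) (M a b) := by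
      rw [← altProd_map, ← altProd_map, agen_rel M a b hab]
    rcases sp_cases M S1 S2 hcov hsep a b hab with ⟨ha, hb⟩ | ⟨ha, hb⟩
    · have h4 := congrArg (SemidirectProduct.inr : Q →* PE α) h3
      rw [altProd_map, altProd_map] at h4
      rw [σX a ha, σX b hb]
      exact h4
    · have h4 := congrArg ψ h3
      rw [altProd_map, altProd_map] at h4
      rw [σY a ha, σY b hb]
      exact h4
  let ι : ArtinGroup M →* PE α := ArtinGroup.lift M σ hrel
  have hι : ∀ a, ι (agen M a) = σ a := fun a => ArtinGroup.lift_agen _ _ _ _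
  have hιX : Set.EqOn ι ((SemidirectProduct.inr : Q →* PE α).comp φ)
      (Subgroup.closure (agen M '' S1)) := by
    apply MonoidHom.eqOn_closure
    rintro _ ⟨r, hr, rfl⟩
    rw [hι, MonoidHom.comp_apply]
    exact σX r hr
  have hιY : Set.EqOn ι (ψ.comp φ) (Subgroup.closure (agen M '' S2)) := by
    apply MonoidHom.eqOn_closure
    rintro _ ⟨r, hr, rfl⟩
    rw [hι, MonoidHom.comp_apply]
    exact σY r hr
  have hinj : Function.Injective ((mag K).comp ι) := by
    refine theta_injective hZX hZY hgen h1 h2 ((mag K).comp ι) ?_ ?_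
    · intro x hx
      rw [MonoidHom.comp_apply, hιX hx, MonoidHom.comp_apply, mag_inr]
    · intro y hy
      rw [MonoidHom.comp_apply, hιY hy, MonoidHom.comp_apply, hψ, map_mul, map_mul, mag_inr,
        mag_of, mag_of_inv]
  have hι' : Function.Injective ι := by
    intro x y hxy
    apply hinj
    rw [MonoidHom.comp_apply, MonoidHom.comp_apply, hxy]
  refine good_inj ι hι' ?_ (good_pe α)
  have h5 : (SemidirectProduct.rightHom : PE α →* Q).comp ι = φ := by
    apply Pool.Agent.Lib.MP_7b9603_alCF.artin_hom_ext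
    intro a
    rw [MonoidHom.comp_apply, hι]
    by_cases ha : a ∈ S1
    · rw [σX a ha, SemidirectProduct.rightHom_inr]
    · rw [σY a ((hcov a).resolve_left ha), hψ, map_mul, map_mul, map_inv,
        SemidirectProduct.rightHom_inl, SemidirectProduct.rightHom_inr, one_mul, inv_one, mul_one]
  exact fun g => DFunLike.congr_fun h5 g

end Pool.Agent.Lib.MP_7b9603_alEV
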