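import Pool.Agent.Lib.MP_7b9603_alEV.Magnus
import Pool.Agent.Lib.MP_7b9603_alEV.Sep

/-!
# Even generators: one label greater than two
-/

set_option autoImplicit false

namespace Pool.Agent.Lib.MP_7b9603_alEV

open SPH Pool.Agent.Lib.MP_7b9603_alIL

universe u w

private theorem e1_altProd {A : Type*} [Monoid A] (a b : A) (n : ℕ) :
    altProd a b (2 * n) = (a * b) ^ n := by
  induction n with
  | zero => rw [mul_zero, pow_zero]; rfl
  | succ n ih =>
    have h : 2 * (n + 1) = 2 * n + 1 + 1 := by ring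
    rw [h]
    change a * (b * altProd a b (2 * n)) = _
    rw [ih, ← mul_assoc, pow_succ']

private theorem e1_conj {A : Type*} [Group A] (a b : A) (n : ℕ) :
    (b * a) ^ n = b * (a * b) ^ n * b⁻¹ := by
  have h2 : b * a = b * (a * b) * b⁻¹ := by group
  rw [h2, conj_pow]

private theorem e1_pow {A : Type*} [Group A] (a b : A) (n : ℕ)
    (h : Commute b ((a * b) ^ n)) : (a * b) ^ n = (b * a) ^ n := by
  rw [e1_conj a b n, h.eq, mul_assoc, mul_inv_cancel, mul_one]

private theorem e1_pow' {A : Type*} [Group A] (a b : A) (n : ℕ)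
    (h : (a * b) ^ n = (b * a) ^ n) : Commute b ((a * b) ^ n) := by
  rw [e1_conj a b n, eq_mul_inv_iff_mul_eq] at h
  exact h.symm

private theorem e1_comm2 {S : Type u} (M : CoxeterMatrix S) {a b : S} (h : M a b = 2) :
    Commute (agen M a) (agen M b) := by
  have h1 := agen_rel M a b (by rw [h]; decide)
  rw [h] at h1
  change agen M a * (agen M b * 1) = agen M b * (agen M a * 1) at h1
  rw [mul_one, mul_one] at h1
  exact h1

private theorem e1_lift {S : Type u} (M : CoxeterMatrix S) (s : S)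
    (N : CoxeterMatrix {x : S // x ≠ s}) (hN : ∀ a b, N a b = M a.1 b.1)
    {P : Type*} [Group P] (x : P) (β : ArtinGroup N →* P)
    (h : ∀ z (hz : z ≠ s), M s z ≠ 0 → altProd x (β (agen N ⟨z, hz⟩)) (M s z) =
      altProd (β (agen N ⟨z, hz⟩)) x (M s z)) :
    ∃ ψ : ArtinGroup M →* P, ψ (agen M s) = x ∧
      ∀ z (hz : z ≠ s), ψ (agen M z) = β (agen N ⟨z, hz⟩) := by
  classical
  refine ⟨ArtinGroup.lift M (fun a => if ha : a = s then x else β (agen N ⟨a, ha⟩)) ?_, ?_, ?_⟩
  · intro a b hab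
    by_cases ha : a = s
    · by_cases hb : b = s
      · rw [dif_pos ha, dif_pos hb]
      · rw [dif_pos ha, dif_neg hb]
        rw [ha] at hab ⊢
        exact h b hb hab
    · by_cases hb : b = s
      · rw [dif_neg ha, dif_pos hb]
        have e : M a b = M s a := by rw [hb]; exact M.symmetric _ _
        rw [e] at hab ⊢
        exact (h a ha hab).symm
      · rw [dif_neg ha, dif_neg hb]
        have h1 := agen_rel N ⟨a, ha⟩ ⟨b, hb⟩ (by rw [hN]; exact hab)
        rw [hN] at h1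
        have h2 := congrArg β h1
        rw [altProd_map, altProd_map] at h2
        exact h2
  · rw [ArtinGroup.lift_agen, dif_pos rfl]
  · intro z hz
    rw [ArtinGroup.lift_agen, dif_neg hz]

private theorem e1_comm {Q : Type u} [Group Q] (Z : Subgroup Q) {q : Q} (hq : q ∈ Z) :
    Commute (SemidirectProduct.inl (FreeGroup.of ((1 : Q) : Q ⧸ Z)) :
      PE (MulAction.toPermHom Q (Q ⧸ Z))) (SemidirectProduct.inr q) := by
  have h1 : MulAction.toPermHom Q (Q ⧸ Z) q ((1 : Q) : Q ⧸ Z) = ((1 : Q) : Q ⧸ Z) := by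
    change ((q * 1 : Q) : Q ⧸ Z) = _
    rw [mul_one]
    refine QuotientGroup.eq.2 ?_
    rw [mul_one]
    exact inv_mem hq
  have h2 := SemidirectProduct.inl_aut (φ := pa (MulAction.toPermHom Q (Q ⧸ Z))) q
    (FreeGroup.of ((1 : Q) : Q ⧸ Z))
  rw [pa_of, h1, map_inv, eq_mul_inv_iff_mul_eq] at h2
  exact h2

/-- The degree. -/
private noncomputable def e1_deg {B Q : Type u} [Group Q] (α : Q →* Equiv.Perm B) :
    PE α →* Multiplicative ℤ :=
  SemidirectProduct.lift (FreeGroup.lift (fun _ => Multiplicative.ofAdd 1)) 1 (by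
    intro q
    apply FreeGroup.ext_hom
    intro b
    rw [MonoidHom.comp_apply, MonoidHom.comp_apply, MulEquiv.coe_toMonoidHom,
      MulEquiv.coe_toMonoidHom, pa_of, FreeGroup.lift_apply_of, FreeGroup.lift_apply_of]
    simp)

private theorem e1_deg_of {B Q : Type u} [Group Q] (α : Q →* Equiv.Perm B) (b : B) :
    e1_deg α (SemidirectProduct.inl (FreeGroup.of b)) = Multiplicative.ofAdd 1 := by
  rw [e1_deg, SemidirectProduct.lift_inl, FreeGroup.lift_apply_of]

private theorem e1_deg_inr {B Q : Type u} [Group Q] (α : Q →* Equiv.Perm B) (q : Q) :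
    e1_deg α (SemidirectProduct.inr q) = 1 := by
  rw [e1_deg, SemidirectProduct.lift_inr]
  rfl

private theorem e1_inj {G Q : Type u} [Group G] [Group Q] (φ : G →* Q) (X Y Z : Subgroup G)
    (Z1 : Subgroup Q) (hZ1 : Z.map φ = Z1) (hZX : Z ≤ X) (hZY : Z ≤ Y) (hgen : X ⊔ Y = ⊤)
    (hX : ∀ x ∈ X, φ x = 1 → x = 1) (hY : ∀ y ∈ Y, φ y = 1 → y = 1)
    (ι : G →* PE (MulAction.toPermHom Q (Q ⧸ Z1)))
    (hιX : ∀ x ∈ X, ι x = SemidirectProduct.inr (φ x))
    (hιY : ∀ y ∈ Y, ι y = SemidirectProduct.inl (FreeGroup.of ((1 : Q) : Q ⧸ Z1)) *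
      SemidirectProduct.inr (φ y) *
        (SemidirectProduct.inl (FreeGroup.of ((1 : Q) : Q ⧸ Z1)))⁻¹) :
    Function.Injective ι := by
  subst hZ1
  have h := theta_injective (K := ℚ) hZX hZY hgen hX hY ((mag ℚ).comp ι)
    (by
      intro x hx
      rw [MonoidHom.comp_apply, hιX x hx, mag_inr])
    (by
      intro y hy
      rw [MonoidHom.comp_apply, hιY y hy, map_mul, map_mul, mag_of, mag_inr, mag_of_inv])
  intro a b hab
  apply h
  rw [MonoidHom.comp_apply, MonoidHom.comp_apply, hab]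

private theorem e1_sup {G Q : Type u} [Group G] [Group Q] (φ : G →* Q) (X Y Z : Subgroup G)
    (hZX : Z ≤ X) (hZY : Z ≤ Y)
    (hX : ∀ x ∈ X, φ x = 1 → x = 1) (hY : ∀ y ∈ Y, φ y = 1 → y = 1)
    (ι : G →* PE (MulAction.toPermHom Q (Q ⧸ Z.map φ)))
    (hιX : ∀ x ∈ X, ι x = SemidirectProduct.inr (φ x))
    (hιY : ∀ y ∈ Y, ι y = SemidirectProduct.inl (FreeGroup.of ((1 : Q) : Q ⧸ Z.map φ)) *
      SemidirectProduct.inr (φ y) *
        (SemidirectProduct.inl (FreeGroup.of ((1 : Q) : Q ⧸ Z.map φ)))⁻¹) :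
    ∀ x ∈ X ⊔ Y, ι x = 1 → x = 1 := by
  have hXH : X ≤ X ⊔ Y := le_sup_left
  have hYH : Y ≤ X ⊔ Y := le_sup_right
  have h := e1_inj (φ.comp (X ⊔ Y).subtype) (X.subgroupOf (X ⊔ Y)) (Y.subgroupOf (X ⊔ Y))
    (Z.subgroupOf (X ⊔ Y)) (Z.map φ)
    (by rw [← Subgroup.map_map, Subgroup.map_subgroupOf_eq_of_le (hZX.trans hXH)])
    (fun x hx => hZX hx) (fun x hx => hZY hx)
    (by rw [← Subgroup.subgroupOf_sup hXH hYH, Subgroup.subgroupOf_self])
    (fun x hx h1 => Subtype.ext (hX x.1 hx h1)) (fun x hx h1 => Subtype.ext (hY x.1 hx h1))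
    (ι.comp (X ⊔ Y).subtype) (fun x hx => hιX x.1 hx) (fun x hx => hιY x.1 hx)
  intro x hx h1
  have h2 : (⟨x, hx⟩ : ↥(X ⊔ Y)) = 1 := by
    apply h
    rw [map_one]
    exact h1
  exact congrArg Subtype.val h2

private theorem e1_decomp {G : Type*} [Group G] (A : Subgroup G) (c : G)
    (hc : ∀ a ∈ A, Commute a c) :
    ∀ x ∈ A ⊔ Subgroup.zpowers c, ∃ a ∈ A, ∃ j : ℤ, x = a * c ^ j := by
  let H : Subgroup G :=
    { carrier := {x | ∃ a ∈ A, ∃ j : ℤ, x = a * c ^ j}
      mul_mem' := by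
        rintro _ _ ⟨a, ha, j, rfl⟩ ⟨b, hb, i, rfl⟩
        refine ⟨a * b, A.mul_mem ha hb, j + i, ?_⟩
        have h1 := ((hc b hb).zpow_right j).eq
        rw [zpow_add]
        calc a * c ^ j * (b * c ^ i) = a * (c ^ j * b) * c ^ i := by simp only [mul_assoc]
          _ = a * (b * c ^ j) * c ^ i := by rw [h1]
          _ = a * b * (c ^ j * c ^ i) := by simp only [mul_assoc]
      one_mem' := ⟨1, A.one_mem, 0, by simp⟩
      inv_mem' := by
        rintro _ ⟨a, ha, j, rfl⟩
        refine ⟨a⁻¹, A.inv_mem ha, -j, ?_⟩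
        have h1 := ((hc a ha).zpow_right j).eq
        rw [h1, mul_inv_rev, zpow_neg] }
  have h : A ⊔ Subgroup.zpowers c ≤ H := by
    refine sup_le (fun a ha => ⟨a, ha, 0, by simp⟩) ?_
    rw [Subgroup.zpowers_le]
    exact ⟨1, A.one_mem, 1, by simp⟩
  exact fun x hx => h hx

private theorem e1_kill {G Q : Type*} [Group G] [Group Q] (φ : G →* Q) (A : Subgroup G) (c : G)
    (hc : ∀ a ∈ A, Commute a c) (δ : Q →* Multiplicative ℤ) (hA : ∀ a ∈ A, δ (φ a) = 1)
    (m : ℤ) (hm : m ≠ 0) (hcm : δ (φ c) = Multiplicative.ofAdd m)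
    (hinj : ∀ a ∈ A, φ a = 1 → a = 1) :
    ∀ x ∈ A ⊔ Subgroup.zpowers c, φ x = 1 → x = 1 := by
  intro x hx h1
  obtain ⟨a, ha, j, rfl⟩ := e1_decomp A c hc x hx
  have h2 := congrArg δ h1
  rw [map_mul, map_mul, hA a ha, one_mul, map_zpow, map_zpow, hcm, map_one] at h2
  have h3 : j = 0 := by
    have h4 := congrArg Multiplicative.toAdd h2
    rw [toAdd_zpow, toAdd_ofAdd, toAdd_one, smul_eq_mul] at h4
    exact (mul_eq_zero.1 h4).resolve_right hm
  rw [h3, zpow_zero, mul_one] at h1 ⊢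
  exact hinj a ha h1

private theorem e1_iotaX {G Q : Type u} [Group G] [Group Q] (φ : G →* Q) (Z : Subgroup G)
    (ι : G →* PE (MulAction.toPermHom Q (Q ⧸ Z.map φ))) (A : Subgroup G) (u : G) (k : ℕ)
    (hA : ∀ a ∈ A, ι a = SemidirectProduct.inr (φ a)) (hcZ : u ^ k ∈ Z)
    (hu : ι u = SemidirectProduct.inl (FreeGroup.of ((1 : Q) : Q ⧸ Z.map φ)) *
      SemidirectProduct.inr (φ u) *
        (SemidirectProduct.inl (FreeGroup.of ((1 : Q) : Q ⧸ Z.map φ)))⁻¹) :
    ∀ x ∈ A ⊔ Subgroup.zpowers (u ^ k), ι x = SemidirectProduct.inr (φ x) := by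
  have h3 : A ⊔ Subgroup.zpowers (u ^ k) ≤ ι.eqLocus (SemidirectProduct.inr.comp φ) := by
    refine sup_le (fun a ha => hA a ha) ?_
    rw [Subgroup.zpowers_le]
    change ι (u ^ k) = SemidirectProduct.inr (φ (u ^ k))
    rw [map_pow ι, hu, conj_pow, ← map_pow, ← map_pow,
      (e1_comm _ (Subgroup.mem_map_of_mem φ hcZ)).eq, mul_inv_cancel_right]
  exact fun x hx => h3 hx

private theorem e1_iotaY {G Q : Type u} [Group G] [Group Q] (φ : G →* Q) (Z : Subgroup G)
    (ι : G →* PE (MulAction.toPermHom Q (Q ⧸ Z.map φ))) (A : Subgroup G) (u : G)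
    (hAZ : A ≤ Z) (hA : ∀ a ∈ A, ι a = SemidirectProduct.inr (φ a))
    (hu : ι u = SemidirectProduct.inl (FreeGroup.of ((1 : Q) : Q ⧸ Z.map φ)) *
      SemidirectProduct.inr (φ u) *
        (SemidirectProduct.inl (FreeGroup.of ((1 : Q) : Q ⧸ Z.map φ)))⁻¹) :
    ∀ y ∈ A ⊔ Subgroup.zpowers u, ι y =
      SemidirectProduct.inl (FreeGroup.of ((1 : Q) : Q ⧸ Z.map φ)) *
      SemidirectProduct.inr (φ y) *
        (SemidirectProduct.inl (FreeGroup.of ((1 : Q) : Q ⧸ Z.map φ)))⁻¹ := by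
  have h3 : A ⊔ Subgroup.zpowers u ≤ ι.eqLocus ((MulAut.conj (SemidirectProduct.inl
      (FreeGroup.of ((1 : Q) : Q ⧸ Z.map φ)))).toMonoidHom.comp
        (SemidirectProduct.inr.comp φ)) := by
    refine sup_le (fun a ha => ?_) ?_
    · change ι a = SemidirectProduct.inl (FreeGroup.of ((1 : Q) : Q ⧸ Z.map φ)) *
        SemidirectProduct.inr (φ a) *
          (SemidirectProduct.inl (FreeGroup.of ((1 : Q) : Q ⧸ Z.map φ)))⁻¹
      rw [hA a ha, (e1_comm _ (Subgroup.mem_map_of_mem φ (hAZ ha))).eq, mul_inv_cancel_right]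
    · rw [Subgroup.zpowers_le]
      exact hu
  exact fun x hx => h3 hx

/-- The second homomorphism. -/
private theorem e1_iota {S : Type u} (M : CoxeterMatrix S) (s w : S) (hws : w ≠ s)
    (N : CoxeterMatrix {x : S // x ≠ s})
    (hN : ∀ a b, N a b = M a.1 b.1) (he : ∀ z, z ≠ s → Even (M s z)) (h0 : M s w ≠ 0)
    (h2 : ∀ z, z ≠ s → z ≠ w → M s z = 0 ∨ M s z = 2)
    (hc : ∀ z, z ≠ s → z ≠ w → M s z = 2 → M w z = 2)
    {Q : Type u} [Group Q] (φ : ArtinGroup M →* Q) (β : ArtinGroup N →* Q)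
    (hβ : ∀ z (hz : z ≠ s), φ (agen M z) = β (agen N ⟨z, hz⟩)) (k : ℕ) (hk : M s w = 2 * k)
    (Z : Subgroup (ArtinGroup M)) (hcZ : (agen M s * agen M w) ^ k ∈ Z)
    (hTZ : ∀ z, z ≠ s → z ≠ w → M s z = 2 → agen M z ∈ Z) :
    ∃ ι : ArtinGroup M →* PE (MulAction.toPermHom Q (Q ⧸ Z.map φ)),
      ι (agen M s * agen M w) =
        SemidirectProduct.inl (FreeGroup.of ((1 : Q) : Q ⧸ Z.map φ)) *
          SemidirectProduct.inr (φ (agen M s * agen M w)) *
            (SemidirectProduct.inl (FreeGroup.of ((1 : Q) : Q ⧸ Z.map φ)))⁻¹ ∧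
      ∀ z, z ≠ s → ι (agen M z) = SemidirectProduct.inr (φ (agen M z)) := by
  obtain ⟨g, hg⟩ : ∃ g : PE (MulAction.toPermHom Q (Q ⧸ Z.map φ)),
      g = SemidirectProduct.inl (FreeGroup.of ((1 : Q) : Q ⧸ Z.map φ)) := ⟨_, rfl⟩
  obtain ⟨ρ, hρ⟩ : ∃ ρ : Q →* PE (MulAction.toPermHom Q (Q ⧸ Z.map φ)),
      ρ = SemidirectProduct.inr := ⟨_, rfl⟩
  rw [← hg]
  rw [← hρ]
  have hgρ : ∀ a ∈ Z, Commute g (ρ (φ a)) := by
    intro a ha
    rw [hg, hρ]
    exact e1_comm (Z.map φ) ⟨a, ha, rfl⟩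
  have hcw : Commute (agen M w) ((agen M s * agen M w) ^ k) := by
    apply e1_pow'
    have h3 := agen_rel M s w h0
    rwa [hk, e1_altProd, e1_altProd] at h3
  obtain ⟨ι, hι1, hι2⟩ := e1_lift M s N hN
    (g * ρ (φ (agen M s * agen M w)) * g⁻¹ * (ρ (φ (agen M w)))⁻¹) (ρ.comp β) (by
      intro z hz hz0
      rw [MonoidHom.comp_apply, ← hβ z hz]
      by_cases hzw : z = w
      · subst hzw
        rw [hk, e1_altProd, e1_altProd]
        apply e1_pow
        rw [inv_mul_cancel_right, conj_pow, ← map_pow, ← map_pow, (hgρ _ hcZ).eq,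
          mul_inv_cancel_right]
        exact (hcw.map φ).map ρ
      · have h3 : M s z = 2 := (h2 z hz hzw).resolve_left hz0
        refine altProd_comm _ _ ?_ _ (he z hz)
        have c1 : Commute g (ρ (φ (agen M z))) := hgρ _ (hTZ z hz hzw h3)
        have c2 : Commute (agen M s) (agen M z) := e1_comm2 M h3
        have c3 : Commute (agen M w) (agen M z) := e1_comm2 M (hc z hz hzw h3)
        have c4 : Commute (ρ (φ (agen M s * agen M w))) (ρ (φ (agen M z))) :=
          ((c2.mul_left c3).map φ).map ρ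
        have c5 : Commute (ρ (φ (agen M w))) (ρ (φ (agen M z))) := (c3.map φ).map ρ
        exact (((c1.mul_left c4).mul_left c1.inv_left).mul_left c5.inv_left).eq)
  have hz' : ∀ z, z ≠ s → ι (agen M z) = ρ (φ (agen M z)) := by
    intro z hz
    rw [hι2 z hz, MonoidHom.comp_apply, hβ z hz]
  refine ⟨ι, ?_, hz'⟩
  rw [map_mul ι, hι1, hz' w hws, inv_mul_cancel_right]

/-- **One even label greater than two** (paper, E1): the retraction which kills a generator `s` all
of whose labels are even, where at most one finite label `m_{sw}` is greater than two and `w`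
commutes with the generators which commute with `s`, is good. -/
theorem even1 {S : Type u} (M : CoxeterMatrix S) (s w : S) (hws : w ≠ s)
    (N : CoxeterMatrix {x : S // x ≠ s})
    (hN : ∀ a b, N a b = M a.1 b.1) (he : ∀ z, z ≠ s → Even (M s z)) (h0 : M s w ≠ 0)
    (h2 : ∀ z, z ≠ s → z ≠ w → M s z = 0 ∨ M s z = 2)
    (hc : ∀ z, z ≠ s → z ≠ w → M s z = 2 → M w z = 2) (K : Type w) [Field K] :
    Good K (Ret M s N hN he) := by
  classical
  obtain ⟨k, hk⟩ : ∃ k, M s w = 2 * k := by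
    obtain ⟨k, hk⟩ := he w hws
    exact ⟨k, by rw [hk]; ring⟩
  have hk0 : k ≠ 0 := by
    rintro rfl
    exact h0 hk
  -- the first homomorphism
  obtain ⟨Z0, hZ0⟩ : ∃ Z0 : Subgroup (ArtinGroup N),
      ∀ z (hz : z ≠ s), M s z ≠ 0 → agen N ⟨z, hz⟩ ∈ Z0 :=
    ⟨Subgroup.closure {x | ∃ z : {x : S // x ≠ s}, M s z.1 ≠ 0 ∧ x = agen N z},
      fun z hz hz0 => Subgroup.subset_closure ⟨⟨z, hz⟩, hz0, rfl⟩⟩
  obtain ⟨φ, hφs, hφz⟩ := e1_lift M s N hN
    (SemidirectProduct.inl (FreeGroup.of ((1 : ArtinGroup N) : ArtinGroup N ⧸ Z0)) :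
      PE (MulAction.toPermHom (ArtinGroup N) (ArtinGroup N ⧸ Z0)))
    SemidirectProduct.inr
    (fun z hz hz0 => altProd_comm _ _ (e1_comm Z0 (hZ0 z hz hz0)).eq _ (he z hz))
  -- the subgroups
  have hcw : Commute (agen M w) ((agen M s * agen M w) ^ k) := by
    apply e1_pow'
    have h3 := agen_rel M s w h0
    rwa [hk, e1_altProd, e1_altProd] at h3
  obtain ⟨T, hT⟩ : ∃ T : Set S, T = {z | z ≠ s ∧ z ≠ w ∧ M s z = 2} := ⟨_, rfl⟩
  have hTs : insert w T ⊆ {s}ᶜ := by
    rintro z (rfl | hz)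
    · exact hws
    · rw [hT] at hz
      exact hz.1
  have hTu : ∀ a ∈ Subgroup.closure (agen M '' T), Commute a (agen M s * agen M w) := by
    have h3 : Subgroup.closure (agen M '' T) ≤
        Subgroup.centralizer {agen M s * agen M w} := by
      rw [Subgroup.closure_le]
      rintro _ ⟨z, hz, rfl⟩
      rw [hT] at hz
      rw [SetLike.mem_coe, Subgroup.mem_centralizer_singleton_iff]
      exact ((e1_comm2 M hz.2.2).mul_left (e1_comm2 M (hc z hz.1 hz.2.1 hz.2.2))).eq.symm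
    intro a ha
    exact Subgroup.mem_centralizer_singleton_iff.1 (h3 ha)
  have hTc : ∀ a ∈ Subgroup.closure (agen M '' (insert w T)),
      Commute a ((agen M s * agen M w) ^ k) := by
    have h3 : Subgroup.closure (agen M '' (insert w T)) ≤
        Subgroup.centralizer {(agen M s * agen M w) ^ k} := by
      rw [Subgroup.closure_le]
      rintro _ ⟨z, hz, rfl⟩
      rw [SetLike.mem_coe, Subgroup.mem_centralizer_singleton_iff]
      rcases hz with rfl | hz
      · exact hcw.eq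
      · exact ((hTu _ (Subgroup.subset_closure ⟨z, hz, rfl⟩)).pow_right k).eq
    intro a ha
    exact Subgroup.mem_centralizer_singleton_iff.1 (h3 ha)
  have hmono : Subgroup.closure (agen M '' T) ≤ Subgroup.closure (agen M '' (insert w T)) :=
    Subgroup.closure_mono (Set.image_mono (Set.subset_insert w T))
  have hmono' : Subgroup.closure (agen M '' (insert w T)) ≤
      Subgroup.closure (agen M '' {s}ᶜ) := Subgroup.closure_mono (Set.image_mono hTs)
  -- the second homomorphism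
  obtain ⟨ι, hι1, hι2⟩ := e1_iota M s w hws N hN he h0 h2 hc φ SemidirectProduct.inr hφz k hk
    (Subgroup.closure (agen M '' T) ⊔ Subgroup.zpowers ((agen M s * agen M w) ^ k))
    (Subgroup.mem_sup_right (Subgroup.mem_zpowers _))
    (fun z hz hzw hz2 => Subgroup.mem_sup_left (Subgroup.subset_closure ⟨z, by
      rw [hT]
      exact ⟨hz, hzw, hz2⟩, rfl⟩))
  have hθs : SemidirectProduct.rightHom (φ (agen M s)) = 1 := by
    rw [hφs, SemidirectProduct.rightHom_inl]
  have hRet : Ret M s N hN he = (SemidirectProduct.rightHom.comp SemidirectProduct.rightHom).comp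
      ι := by
    apply Pool.Agent.Lib.MP_7b9603_alCF.artin_hom_ext
    intro a
    rw [MonoidHom.comp_apply, MonoidHom.comp_apply]
    by_cases ha : a = s
    · have h3 := congrArg (SemidirectProduct.rightHom.comp SemidirectProduct.rightHom) hι1
      rw [map_mul ι, map_mul, hι2 w hws] at h3
      simp only [MonoidHom.comp_apply, map_mul, map_inv, SemidirectProduct.rightHom_inl,
        SemidirectProduct.rightHom_inr, one_mul, inv_one, mul_one, hθs, map_one] at h3
      rw [ha, Ret_self, mul_eq_right.1 h3]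
    · rw [Ret_ne _ _ _ _ _ _ ha, hι2 a ha, SemidirectProduct.rightHom_inr, hφz a ha,
        SemidirectProduct.rightHom_inr]
  -- injectivity on the first subgroup
  have hinj : ∀ x ∈ Subgroup.closure (agen M '' {s}ᶜ), Ret M s N hN he x = 1 → x = 1 := by
    refine par_inj M N (fun a => if ha : a = s then ⟨w, hws⟩ else ⟨a, ha⟩) {s}ᶜ ?_ ?_
      (Ret M s N hN he) ?_
    · intro a ha b hb hab
      have ha' : a ≠ s := ha
      have hb' : b ≠ s := hb
      simp only [dif_neg ha', dif_neg hb'] at hab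
      exact congrArg Subtype.val hab
    · intro a ha b hb
      have ha' : a ≠ s := ha
      have hb' : b ≠ s := hb
      simp only [dif_neg ha', dif_neg hb']
      exact hN _ _
    · intro a ha
      have ha' : a ≠ s := ha
      simp only [dif_neg ha']
      exact Ret_ne _ _ _ _ _ _ ha'
  have hφR : ∀ a ∈ Subgroup.closure (agen M '' {s}ᶜ), φ a = 1 → a = 1 := by
    intro a ha h3
    apply hinj a ha
    have h4 : Ret M s N hN he = SemidirectProduct.rightHom.comp φ := by
      apply Pool.Agent.Lib.MP_7b9603_alCF.artin_hom_ext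
      intro b
      rw [MonoidHom.comp_apply]
      by_cases hb : b = s
      · rw [hb, Ret_self, hθs]
      · rw [Ret_ne _ _ _ _ _ _ hb, hφz b hb, SemidirectProduct.rightHom_inr]
    rw [h4, MonoidHom.comp_apply, h3, map_one]
  have hdeg : ∀ a ∈ Subgroup.closure (agen M '' {s}ᶜ), e1_deg _ (φ a) = 1 := by
    have h3 : Subgroup.closure (agen M '' {s}ᶜ) ≤ ((e1_deg _).comp φ).ker := by
      rw [Subgroup.closure_le]
      rintro _ ⟨z, hz, rfl⟩
      rw [SetLike.mem_coe, MonoidHom.mem_ker, MonoidHom.comp_apply, hφz z hz, e1_deg_inr]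
    intro a ha
    exact h3 ha
  have hdegu : e1_deg _ (φ (agen M s * agen M w)) = Multiplicative.ofAdd (1 : ℤ) := by
    rw [map_mul, map_mul, hφs, e1_deg_of, hφz w hws, e1_deg_inr, mul_one]
  have hdegc : e1_deg _ (φ ((agen M s * agen M w) ^ k)) = Multiplicative.ofAdd (k : ℤ) := by
    rw [map_pow, map_pow, hdegu, ← ofAdd_nsmul, nsmul_eq_mul, mul_one]
  -- injectivity on the second subgroup
  have hιw : ∀ a ∈ Subgroup.closure (agen M '' {s}ᶜ), ι a = SemidirectProduct.inr (φ a) := by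
    have h3 : Set.EqOn ι (SemidirectProduct.inr.comp φ) (Subgroup.closure (agen M '' {s}ᶜ)) := by
      apply MonoidHom.eqOn_closure
      rintro _ ⟨z, hz, rfl⟩
      rw [MonoidHom.comp_apply]
      exact hι2 z hz
    intro a ha
    exact h3 ha
  have hsup := e1_sup φ
    (Subgroup.closure (agen M '' (insert w T)) ⊔
      Subgroup.zpowers ((agen M s * agen M w) ^ k))
    (Subgroup.closure (agen M '' T) ⊔ Subgroup.zpowers (agen M s * agen M w))
    (Subgroup.closure (agen M '' T) ⊔ Subgroup.zpowers ((agen M s * agen M w) ^ k))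
    (sup_le_sup_right hmono _)
    (sup_le_sup_left (by
      rw [Subgroup.zpowers_le]
      exact Subgroup.npow_mem_zpowers _ _) _)
    (e1_kill φ _ _ hTc (e1_deg _) (fun a ha => hdeg a (hmono' ha)) k (by exact_mod_cast hk0)
      hdegc (fun a ha => hφR a (hmono' ha)))
    (e1_kill φ _ _ hTu (e1_deg _) (fun a ha => hdeg a (hmono' (hmono ha))) 1 one_ne_zero
      hdegu (fun a ha => hφR a (hmono' (hmono ha))))
    ι
    (e1_iotaX φ _ ι _ _ k (fun a ha => hιw a (hmono' ha))
      (Subgroup.mem_sup_right (Subgroup.mem_zpowers _)) hι1)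
    (e1_iotaY φ _ ι _ _ le_sup_left (fun a ha => hιw a (hmono' (hmono ha))) hι1)
  rw [hRet]
  refine good_comp (sep_good M {s}ᶜ (insert s (insert w T)) ?_ ?_ ι ?_ ?_ K)
    (good_comp (good_pe _) (good_pe _))
  · intro a
    by_cases ha : a = s
    · exact Or.inr (Or.inl ha)
    · exact Or.inl ha
  · intro a b ha hb
    have hb' : b = s := not_not.1 hb
    have h3 : a ≠ s := fun h => ha (Or.inl h)
    have h4 : a ≠ w := fun h => ha (Or.inr (Or.inl h))
    have h5 : M s a ≠ 2 := fun h => ha (Or.inr (Or.inr (by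
      rw [hT]
      exact ⟨h3, h4, h⟩)))
    rw [hb', show M a s = M s a from M.symmetric _ _]
    exact (h2 a h3 h4).resolve_right h5
  · intro x hx h3
    apply hinj x hx
    rw [hRet, MonoidHom.comp_apply, h3, map_one]
  · intro x hx h3
    refine hsup x ?_ h3
    refine (Subgroup.closure_le _).2 ?_ hx
    have hw' : agen M w ∈ Subgroup.closure (agen M '' (insert w T)) :=
      Subgroup.subset_closure ⟨w, Set.mem_insert _ _, rfl⟩
    rintro _ ⟨z, hz, rfl⟩
    rcases hz with rfl | hz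
    · have h4 : agen M z * agen M w ∈ (Subgroup.closure (agen M '' (insert w T)) ⊔
          Subgroup.zpowers ((agen M z * agen M w) ^ k)) ⊔
            (Subgroup.closure (agen M '' T) ⊔ Subgroup.zpowers (agen M z * agen M w)) :=
        Subgroup.mem_sup_right (Subgroup.mem_sup_right (Subgroup.mem_zpowers _))
      have h5 := mul_mem h4 (inv_mem (Subgroup.mem_sup_left (Subgroup.mem_sup_left hw')))
      rw [mul_inv_cancel_right] at h5
      exact h5
    · exact Subgroup.mem_sup_left (Subgroup.mem_sup_left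
        (Subgroup.subset_closure ⟨z, hz, rfl⟩))

end Pool.Agent.Lib.MP_7b9603_alEV
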