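import Pool.Agent.Lib.MP_7b9603_alEV.E1
import Pool.Agent.Lib.MP_7b9603_alEV.Sep

/-!
# Even generators: normalization

A generator `s` with even labels, all but one of them `2` or infinite.
-/

set_option autoImplicit false

namespace Pool.Agent.Lib.MP_7b9603_alEV

open SPH Pool.Agent.Lib.MP_7b9603_alIL

universe u w

/-- Two homomorphisms of an Artin group which agree on the generators agree. -/
theorem f1_ext {S : Type u} (M : CoxeterMatrix S) {G : Type u} [Group G]
    (f g : ArtinGroup M →* G) (h : ∀ a, f (agen M a) = g (agen M a)) (x : ArtinGroup M) :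
    f x = g x :=
  DFunLike.congr_fun (Pool.Agent.Lib.MP_7b9603_alCF.artin_hom_ext (f := f) (g := g) h) x

/-- The step: the label of `w`, `z` is `∞` and becomes `2`. -/
theorem f1_step {S : Type u} (M : CoxeterMatrix S) (s w z : S) (hwz : w ≠ z) (N : CoxeterMatrix {x : S // x ≠ s})
    (hN : ∀ a b, N a b = M a.1 b.1) (he : ∀ z, z ≠ s → Even (M s z)) (h0 : M w z = 0)
    (K : Type w) [Field K]
    (he1 : ∀ a, a ≠ s → Even (set2 M w z hwz s a))
    (h : Good K (Ret (set2 M w z hwz) s (rs (set2 M w z hwz) s)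
      (rs_apply (set2 M w z hwz) s) he1)) :
    Good K (Ret M s N hN he) := by
  have hn : ∀ a b, M a b ≠ 0 → set2 M w z hwz a b = M a b := by
    intro a b hab
    refine set2_neg M w z hwz ?_
    rintro (⟨h1, h2⟩ | ⟨h1, h2⟩)
    · exact hab (by rw [h1, h2]; exact h0)
    · exact hab (by rw [h1, h2, show M z w = M w z from M.symmetric _ _]; exact h0)
  obtain ⟨p, hp⟩ := exists_idHom M (set2 M w z hwz) fun a b hab => Or.inl (hn a b hab)
  obtain ⟨q, hq⟩ := exists_idHom N (rs (set2 M w z hwz) s) fun a b hab => Or.inl (by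
    rw [rs_apply, hn _ _ (by rw [← hN]; exact hab), hN])
  have hagree : ∀ x, Ret (set2 M w z hwz) s (rs (set2 M w z hwz) s)
      (rs_apply (set2 M w z hwz) s) he1 (p x) = q (Ret M s N hN he x) := by
    intro x
    refine f1_ext M ((Ret (set2 M w z hwz) s (rs (set2 M w z hwz) s)
      (rs_apply (set2 M w z hwz) s) he1).comp p) (q.comp (Ret M s N hN he)) (fun a => ?_) x
    rw [MonoidHom.comp_apply, MonoidHom.comp_apply, hp]
    by_cases ha : a = s
    · rw [ha, Ret_self, Ret_self, map_one]
    · rw [Ret_ne _ _ _ _ _ a ha, Ret_ne _ _ _ _ _ a ha, hq]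
  let ι : ArtinGroup M →* fib (Ret (set2 M w z hwz) s (rs (set2 M w z hwz) s)
      (rs_apply (set2 M w z hwz) s) he1) q :=
    (p.prod (Ret M s N hN he)).codRestrict _ hagree
  have hι : ∀ x, ι x = 1 → p x = 1 := by
    intro x hx
    exact congrArg (fun y : fib (Ret (set2 M w z hwz) s (rs (set2 M w z hwz) s)
      (rs_apply (set2 M w z hwz) s) he1) q => y.1.1) hx
  have hgood : Good K ι := by
    refine sep_good M {a | a ≠ w} {a | a ≠ z} ?_ ?_ ι ?_ ?_ K
    · intro a
      by_cases ha : a = w
      · exact Or.inr fun h1 => hwz (ha.symm.trans h1)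
      · exact Or.inl ha
    · intro a b ha hb
      have ha' : a = z := not_not.1 ha
      have hb' : b = w := not_not.1 hb
      rw [ha', hb', show M z w = M w z from M.symmetric _ _]
      exact h0
    · intro x hx h1
      refine par_inj M (set2 M w z hwz) id {a | a ≠ w} (Set.injOn_id _) (fun a ha b hb => ?_) p
        (fun a _ => hp a) x hx (hι x h1)
      refine set2_neg M w z hwz ?_
      rintro (⟨h2, -⟩ | ⟨-, h2⟩)
      · exact ha h2
      · exact hb h2
    · intro x hx h1
      refine par_inj M (set2 M w z hwz) id {a | a ≠ z} (Set.injOn_id _) (fun a ha b hb => ?_) p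
        (fun a _ => hp a) x hx (hι x h1)
      refine set2_neg M w z hwz ?_
      rintro (⟨-, h2⟩ | ⟨h2, -⟩)
      · exact hb h2
      · exact ha h2
  exact good_comp hgood (good_base h q)

open Classical in
/-- The case with a bound for the number of generators `z` with labels `m_sz = 2`, `m_wz = ∞`. -/
theorem f1_aux {S : Type u} [Finite S] (n : ℕ) (M : CoxeterMatrix S) (s w : S) (hws : w ≠ s)
    (N : CoxeterMatrix {x : S // x ≠ s})
    (hN : ∀ a b, N a b = M a.1 b.1) (he : ∀ z, z ≠ s → Even (M s z)) (h0 : M s w ≠ 0)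
    (h2 : ∀ z, z ≠ s → z ≠ w → M s z = 0 ∨ M s z = 2)
    (hc : ∀ z, z ≠ s → z ≠ w → M s z = 2 → M w z = 2 ∨ M w z = 0)
    (hcard : {z | z ≠ s ∧ z ≠ w ∧ M s z = 2 ∧ M w z = 0}.ncard ≤ n) (K : Type w) [Field K] :
    Good K (Ret M s N hN he) := by
  induction n generalizing M N with
  | zero =>
    refine even1 M s w hws N hN he h0 h2 (fun z h3 h4 h5 => ?_) K
    rcases hc z h3 h4 h5 with h6 | h6
    · exact h6
    · exfalso
      have h7 := (Set.ncard_eq_zero (Set.toFinite _)).1 (Nat.le_zero.1 hcard)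
      have h8 : z ∈ {z | z ≠ s ∧ z ≠ w ∧ M s z = 2 ∧ M w z = 0} := ⟨h3, h4, h5, h6⟩
      rw [h7] at h8
      exact h8
  | succ n ih =>
    by_cases hex : ∃ z, z ≠ s ∧ z ≠ w ∧ M s z = 2 ∧ M w z = 0
    · obtain ⟨z, h3, h4, h5, h6⟩ := hex
      have hwz : w ≠ z := fun h => h4 h.symm
      have hs : ∀ a, set2 M w z hwz s a = M s a := by
        intro a
        refine set2_neg M w z hwz ?_
        rintro (⟨h7, -⟩ | ⟨h7, -⟩)
        · exact hws h7.symm
        · exact h3 h7.symm
      have hw1 : set2 M w z hwz w z = 2 := set2_pos M w z hwz (Or.inl ⟨rfl, rfl⟩)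
      have hw2 : ∀ a, a ≠ z → set2 M w z hwz w a = M w a := by
        intro a ha
        refine set2_neg M w z hwz ?_
        rintro (⟨-, h7⟩ | ⟨h7, -⟩)
        · exact ha h7
        · exact hwz h7
      refine f1_step M s w z hwz N hN he h6 K (fun a ha => by rw [hs]; exact he a ha) ?_
      refine ih (set2 M w z hwz) (rs (set2 M w z hwz) s) (rs_apply _ _) _ ?_ ?_ ?_ ?_
      · rw [hs]
        exact h0
      · intro a ha ha'
        rw [hs]
        exact h2 a ha ha'
      · intro a ha ha' h7
        rw [hs] at h7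
        by_cases haz : a = z
        · rw [haz]
          exact Or.inl hw1
        · rw [hw2 a haz]
          exact hc a ha ha' h7
      · have hlt : {a | a ≠ s ∧ a ≠ w ∧ set2 M w z hwz s a = 2 ∧ set2 M w z hwz w a = 0}.ncard <
            {z | z ≠ s ∧ z ≠ w ∧ M s z = 2 ∧ M w z = 0}.ncard := by
          refine Set.ncard_lt_ncard ?_ (Set.toFinite _)
          refine (Set.ssubset_iff_of_subset ?_).2 ⟨z, ⟨h3, h4, h5, h6⟩, ?_⟩
          · rintro a ⟨a1, a2, a3, a4⟩
            have haz : a ≠ z := by
              rintro rfl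
              rw [hw1] at a4
              exact absurd a4 (by decide)
            rw [hs] at a3
            rw [hw2 a haz] at a4
            exact ⟨a1, a2, a3, a4⟩
          · rintro ⟨-, -, -, a4⟩
            rw [hw1] at a4
            exact absurd a4 (by decide)
        omega
    · refine even1 M s w hws N hN he h0 h2 (fun z h3 h4 h5 => ?_) K
      rcases hc z h3 h4 h5 with h6 | h6
      · exact h6
      · exact absurd ⟨z, h3, h4, h5, h6⟩ hex

/-- The generator `w` commutes with the generators `z` with `m_sz = 2` or is not joined to them. -/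
theorem even1' {S : Type u} [Finite S] (M : CoxeterMatrix S) (s w : S) (hws : w ≠ s)
    (N : CoxeterMatrix {x : S // x ≠ s})
    (hN : ∀ a b, N a b = M a.1 b.1) (he : ∀ z, z ≠ s → Even (M s z)) (h0 : M s w ≠ 0)
    (h2 : ∀ z, z ≠ s → z ≠ w → M s z = 0 ∨ M s z = 2)
    (hc : ∀ z, z ≠ s → z ≠ w → M s z = 2 → M w z = 2 ∨ M w z = 0) (K : Type w) [Field K] :
    Good K (Ret M s N hN he) :=
  f1_aux _ M s w hws N hN he h0 h2 hc le_rfl K

end Pool.Agent.Lib.MP_7b9603_alEV
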