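import Pool.Agent.Lib.MP_7b9603_alEV.E0
import Pool.Agent.Lib.MP_7b9603_alEV.F1
import Pool.Agent.Lib.MP_7b9603_alEV.Sep

/-!
# Even generators: several generators with labels larger than two
-/

set_option autoImplicit false

namespace Pool.Agent.Lib.MP_7b9603_alEV

open SPH Pool.Agent.Lib.MP_7b9603_alIL

universe u w

section

variable {S : Type u} (M : CoxeterMatrix S) (s w : S) (hws : w ≠ s)
  (N : CoxeterMatrix {x : S // x ≠ s})

private theorem f2_sw {s w : S} (hws : w ≠ s) : s ≠ w := fun h => hws h.symm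

private theorem f2_self : set2 M s w (f2_sw hws) s w = 2 :=
  set2_pos M s w _ (Or.inl ⟨rfl, rfl⟩)

private theorem f2_other (a b : S) (ha : a ≠ w) (hb : b ≠ w) :
    set2 M s w (f2_sw hws) a b = M a b :=
  set2_neg M s w _ (by
    rintro (⟨_, h⟩ | ⟨h, _⟩)
    · exact hb h
    · exact ha h)

private theorem f2_off (a b : S) (ha : a ≠ s) (hb : b ≠ s) :
    set2 M s w (f2_sw hws) a b = M a b :=
  set2_neg M s w _ (by
    rintro (⟨h, _⟩ | ⟨_, h⟩)
    · exact ha h
    · exact hb h)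

private theorem f2_hN (hN : ∀ a b, N a b = M a.1 b.1) :
    ∀ a b, N a b = set2 M s w (f2_sw hws) a.1 b.1 := fun a b => by
  rw [f2_off M s w hws a.1 b.1 a.2 b.2]
  exact hN a b

private theorem f2_he (he : ∀ z, z ≠ s → Even (M s z)) :
    ∀ z, z ≠ s → Even (set2 M s w (f2_sw hws) s z) := fun z hz => by
  by_cases h : z = w
  · rw [h, f2_self M s w hws]
    exact even_two
  · rw [f2_other M s w hws s z (f2_sw hws) h]
    exact he z hz

private theorem f2_idHom (he : ∀ z, z ≠ s → Even (M s z)) :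
    ∃ p : ArtinGroup M →* ArtinGroup (set2 M s w (f2_sw hws)),
      ∀ a, p (agen M a) = agen (set2 M s w (f2_sw hws)) a := by
  apply exists_idHom
  intro a b _
  by_cases h : (a = s ∧ b = w) ∨ (a = w ∧ b = s)
  · right
    refine ⟨set2_pos M s w _ h, ?_⟩
    rcases h with ⟨h1, h2⟩ | ⟨h1, h2⟩
    · rw [h1, h2]
      exact he w hws
    · rw [h1, h2, show M w s = M s w from M.symmetric _ _]
      exact he w hws
  · left
    exact set2_neg M s w _ h

private theorem f2_inj (p : ArtinGroup M →* ArtinGroup (set2 M s w (f2_sw hws)))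
    (hp : ∀ a, p (agen M a) = agen (set2 M s w (f2_sw hws)) a) :
    ∀ x ∈ Subgroup.closure (agen M '' {w}ᶜ), p x = 1 → x = 1 :=
  par_inj M (set2 M s w (f2_sw hws)) id {w}ᶜ (Set.injOn_id _)
    (fun a ha b hb => f2_other M s w hws a b ha hb) p (fun a _ => hp a)

open Pool.Agent.Lib.MP_7b9603_alCF in
private theorem f2_ret (hN : ∀ a b, N a b = M a.1 b.1) (he : ∀ z, z ≠ s → Even (M s z))
    (p : ArtinGroup M →* ArtinGroup (set2 M s w (f2_sw hws)))
    (hp : ∀ a, p (agen M a) = agen (set2 M s w (f2_sw hws)) a) :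
    (Ret (set2 M s w (f2_sw hws)) s N (f2_hN M s w hws N hN) (f2_he M s w hws he)).comp p =
      Ret M s N hN he := by
  apply artin_hom_ext
  intro a
  rw [MonoidHom.comp_apply, hp, Ret_agen, Ret_agen]

private theorem f2_loc
    (hloc : ∀ w z, w ≠ s → z ≠ s → w ≠ z → M s w ≠ 0 → M s w ≠ 2 → M s z ≠ 0 → M w z ≠ 0 →
      M s z = 2 ∧ M w z = 2) (h0 : M s w ≠ 0) (h2 : M s w ≠ 2) :
    ∀ v z, v ≠ s → z ≠ s → v ≠ z → set2 M s w (f2_sw hws) s v ≠ 0 →
      set2 M s w (f2_sw hws) s v ≠ 2 → set2 M s w (f2_sw hws) s z ≠ 0 →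
      set2 M s w (f2_sw hws) v z ≠ 0 →
      set2 M s w (f2_sw hws) s z = 2 ∧ set2 M s w (f2_sw hws) v z = 2 := by
  intro v z hv hz hvz h3 h4 h5 h6
  have hvw : v ≠ w := by
    intro h
    rw [h] at h4
    exact h4 (f2_self M s w hws)
  rw [f2_other M s w hws s v (f2_sw hws) hvw] at h3 h4
  rw [f2_off M s w hws v z hv hz] at h6 ⊢
  by_cases hzw : z = w
  · rw [hzw] at h6 hvz
    exact absurd (hloc v w hv hws hvz h3 h4 h0 h6).1 h2
  · rw [f2_other M s w hws s z (f2_sw hws) hzw] at h5 ⊢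
    exact hloc v z hv hz hvz h3 h4 h5 h6

private theorem f2_card [Finite S] (h0 : M s w ≠ 0) (h2 : M s w ≠ 2) :
    {v : S | v ≠ s ∧ set2 M s w (f2_sw hws) s v ≠ 0 ∧ set2 M s w (f2_sw hws) s v ≠ 2}.ncard <
      {v : S | v ≠ s ∧ M s v ≠ 0 ∧ M s v ≠ 2}.ncard := by
  apply Set.ncard_lt_ncard _ (Set.toFinite _)
  refine ⟨?_, ?_⟩
  · rintro v ⟨h3, h4, h5⟩
    have hvw : v ≠ w := by
      intro h
      rw [h] at h5
      exact h5 (f2_self M s w hws)
    rw [f2_other M s w hws s v (f2_sw hws) hvw] at h4 h5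
    exact ⟨h3, h4, h5⟩
  · intro h
    have h3 := h (show w ∈ {v : S | v ≠ s ∧ M s v ≠ 0 ∧ M s v ≠ 2} from ⟨hws, h0, h2⟩)
    exact h3.2.2 (f2_self M s w hws)

end

/-- The retraction which kills a generator with even labels is good, if a large label at `s` and a
finite label at `s` are joined by an infinite label or are a large label and two with the label `2`
between them. -/
theorem even_all {S : Type u} [Finite S] (M : CoxeterMatrix S) (s : S)
    (N : CoxeterMatrix {x : S // x ≠ s})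
    (hN : ∀ a b, N a b = M a.1 b.1) (he : ∀ z, z ≠ s → Even (M s z))
    (hloc : ∀ w z, w ≠ s → z ≠ s → w ≠ z → M s w ≠ 0 → M s w ≠ 2 → M s z ≠ 0 → M w z ≠ 0 →
      M s z = 2 ∧ M w z = 2) (K : Type w) [Field K] :
    Good K (Ret M s N hN he) := by
  induction h : {v : S | v ≠ s ∧ M s v ≠ 0 ∧ M s v ≠ 2}.ncard using Nat.strong_induction_on
    generalizing M with
  | _ n ih =>
  by_cases hT : ∃ v v', v ≠ v' ∧ (v ≠ s ∧ M s v ≠ 0 ∧ M s v ≠ 2) ∧
      (v' ≠ s ∧ M s v' ≠ 0 ∧ M s v' ≠ 2)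
  · obtain ⟨v, v', hvv, ⟨h1, h2, h3⟩, ⟨h1', h2', h3'⟩⟩ := hT
    have hinf : M v' v = 0 := by
      by_contra h4
      exact h3 (hloc v' v h1' h1 (fun e => hvv e.symm) h2' h3' h2 h4).1
    have g := ih _ (by rw [← h]; exact f2_card M s v h1 h2 h3) (set2 M s v (f2_sw h1))
      (f2_hN M s v h1 N hN) (f2_he M s v h1 he) (f2_loc M s v h1 hloc h2 h3) rfl
    have g' := ih _ (by rw [← h]; exact f2_card M s v' h1' h2' h3') (set2 M s v' (f2_sw h1'))
      (f2_hN M s v' h1' N hN) (f2_he M s v' h1' he) (f2_loc M s v' h1' hloc h2' h3') rfl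
    obtain ⟨p, hp⟩ := f2_idHom M s v h1 he
    obtain ⟨p', hp'⟩ := f2_idHom M s v' h1' he
    have r := f2_ret M s v h1 N hN he p hp
    have r' := f2_ret M s v' h1' N hN he p' hp'
    let ι : ArtinGroup M →* fib
        (Ret (set2 M s v (f2_sw h1)) s N (f2_hN M s v h1 N hN) (f2_he M s v h1 he))
        (Ret (set2 M s v' (f2_sw h1')) s N (f2_hN M s v' h1' N hN) (f2_he M s v' h1' he)) :=
      (p.prod p').codRestrict _ (fun x => by
        have e1 := DFunLike.congr_fun r x
        have e2 := DFunLike.congr_fun r' x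
        exact e1.trans e2.symm)
    have gι : Good K ι := by
      refine sep_good M {v}ᶜ {v'}ᶜ ?_ ?_ ι ?_ ?_ K
      · intro a
        by_cases ha : a = v
        · right
          rw [ha]
          exact hvv
        · left
          exact ha
      · intro a b ha hb
        have ha' : a = v' := not_not.mp ha
        have hb' : b = v := not_not.mp hb
        rw [ha', hb']
        exact hinf
      · intro x hx hx1
        exact f2_inj M s v h1 p hp x hx (congrArg (fun y => y.1.1) hx1)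
      · intro x hx hx1
        exact f2_inj M s v' h1' p' hp' x hx (congrArg (fun y => y.1.2) hx1)
    have e : Ret M s N hN he =
        ((Ret (set2 M s v' (f2_sw h1')) s N (f2_hN M s v' h1' N hN) (f2_he M s v' h1' he)).comp
          (fsnd (Ret (set2 M s v (f2_sw h1)) s N (f2_hN M s v h1 N hN) (f2_he M s v h1 he))
            (Ret (set2 M s v' (f2_sw h1')) s N (f2_hN M s v' h1' N hN)
              (f2_he M s v' h1' he)))).comp ι := by
      rw [← r']
      rfl
    rw [e]
    exact good_comp gι (good_comp (good_base g _) g')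
  · by_cases hT1 : ∃ v, v ≠ s ∧ M s v ≠ 0 ∧ M s v ≠ 2
    · obtain ⟨v, h1, h2, h3⟩ := hT1
      have hz : ∀ z, z ≠ s → z ≠ v → M s z = 0 ∨ M s z = 2 := by
        intro z hzs hzv
        by_contra h4
        rw [not_or] at h4
        exact hT ⟨v, z, fun e => hzv e.symm, ⟨h1, h2, h3⟩, ⟨hzs, h4.1, h4.2⟩⟩
      refine even1' M s v h1 N hN he h2 hz ?_ K
      intro z hzs hzv hz2
      by_cases h5 : M v z = 0
      · exact Or.inr h5
      · exact Or.inl (hloc v z h1 hzs (fun e => hzv e.symm) h2 h3 (by rw [hz2]; decide) h5).2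
    · refine even0 M s N hN he ?_ K
      intro z hz
      by_contra h4
      rw [not_or] at h4
      exact hT1 ⟨z, hz, h4.1, h4.2⟩

end Pool.Agent.Lib.MP_7b9603_alEV
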