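import Pool.Agent.Lib.MP_7b9603_alEV.Defs

/-!
# Even generators: linear independence
-/

set_option autoImplicit false

namespace Pool.Agent.Lib.MP_7b9603_alEV

open SPH Pool.Agent.Lib.MP_7b9603_alIL

universe u w

section

variable {K : Type w} [Field K] {B Q G : Type u} [Group Q] [MulAction Q B] [Group G]

private theorem in_ev_zero (l : List B) (q : Q) : ev (0 : TS K B Q) l q = 0 := by
  simp [ev]

private theorem in_ev_sum {ι : Type*} (s : Finset ι) (F : ι → TS K B Q) (l : List B) (q : Q) :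
    ev (∑ i ∈ s, F i) l q = ∑ i ∈ s, ev (F i) l q := by
  classical
  induction s using Finset.induction_on with
  | empty => simp [ev]
  | insert a s ha ih =>
    rw [Finset.sum_insert ha, Finset.sum_insert ha, ← ih]
    simp [ev]

private theorem in_ev_smul (k : K) (F : TS K B Q) (l : List B) (q : Q) :
    ev (k • F) l q = k * ev F l q := by
  simp [ev]

private theorem in_injective (Θ : G →* TS K B Q)
    (φ : G →* Q) (l : G → List B) (hl : ∀ g, Θ g = P K Q true (l g) * Cg K B (φ g))
    (hc : ∀ g, (l g).IsChain (· ≠ ·)) (h0 : ∀ g, l g = [] → φ g = 1 → g = 1) :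
    Function.Injective Θ := by
  intro g g' hgg
  have h1 : Θ (g⁻¹ * g') = 1 := by
    rw [map_mul, ← hgg, ← map_mul, inv_mul_cancel, map_one]
  have h2 := hl (g⁻¹ * g')
  rw [h1] at h2
  have h3 : (1 : TS K B Q) = P K Q true [] * Cg K _ 1 := by
    rw [P, one_mul, map_one]
  obtain ⟨ε, hε, h4⟩ := ev_P (K := K) true (l (g⁻¹ * g')) (φ (g⁻¹ * g'))
  obtain ⟨ε', hε', h5⟩ := ev_P (K := K) true ([] : List B) (1 : Q)
  have h6 := h4 (l (g⁻¹ * g')) (φ (g⁻¹ * g')) (hc _) le_rfl
  have h7 := h5 (l (g⁻¹ * g')) (φ (g⁻¹ * g')) (hc _) (Nat.zero_le _)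
  rw [← h2] at h6
  rw [← h3] at h7
  rw [h6] at h7
  rw [if_pos ⟨rfl, rfl⟩] at h7
  by_cases h8 : l (g⁻¹ * g') = [] ∧ φ (g⁻¹ * g') = 1
  · have h11 := h0 _ h8.1 h8.2
    rw [inv_mul_eq_one] at h11
    exact h11
  · rw [if_neg h8] at h7
    exact absurd h7 hε

/-- Group algebras embedded by words. -/
theorem indep (Θ : G →* TS K B Q)
    (φ : G →* Q) (l : G → List B) (hl : ∀ g, Θ g = P K Q true (l g) * Cg K B (φ g))
    (hc : ∀ g, (l g).IsChain (· ≠ ·)) (h0 : ∀ g, l g = [] → φ g = 1 → g = 1)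
    (h : NoZeroDivisors (MonoidAlgebra K Q)) : NoZeroDivisors (MonoidAlgebra K G) := by
  classical
  have hinj := in_injective Θ φ l hl hc h0
  have hlift : Function.Injective (MonoidAlgebra.lift K (TS K B Q) G Θ) := by
    rw [injective_iff_map_eq_zero]
    intro f hf
    by_contra hne
    have hs : f.coeff.support.Nonempty := by
      rw [Finsupp.support_nonempty_iff]
      intro h
      apply hne
      ext g
      rw [h]
      rfl
    obtain ⟨g0, hg0, hmax⟩ := Finset.exists_max_image f.coeff.support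
      (fun g => (l g).length) hs
    rw [MonoidAlgebra.lift_apply] at hf
    have h1 : ev (f.coeff.sum fun a b => b • Θ a) (l g0) (φ g0) = 0 := by
      rw [hf]
      exact in_ev_zero _ _
    rw [Finsupp.sum, in_ev_sum, Finset.sum_eq_single g0] at h1
    · rw [in_ev_smul, hl g0] at h1
      obtain ⟨ε, hε, h4⟩ := ev_P (K := K) true (l g0) (φ g0)
      rw [h4 (l g0) (φ g0) (hc g0) le_rfl, if_pos ⟨rfl, rfl⟩] at h1
      rw [Finsupp.mem_support_iff] at hg0
      exact (mul_ne_zero hg0 hε) h1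
    · intro g hg hgg0
      rw [in_ev_smul, hl g]
      obtain ⟨ε, hε, h4⟩ := ev_P (K := K) true (l g) (φ g)
      rw [h4 (l g0) (φ g0) (hc g0) (hmax g hg), if_neg, mul_zero]
      rintro ⟨h5, h6⟩
      apply hgg0
      apply hinj
      rw [hl g, hl g0, h5, h6]
    · intro h
      exact absurd hg0 h
  have h1 : NoZeroDivisors (TA K B Q) := noZeroDivisors_TA
  have h2 : NoZeroDivisors (TS K B Q) := inferInstance
  exact Function.Injective.noZeroDivisors _ hlift (map_zero _) (map_mul _)

end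

end Pool.Agent.Lib.MP_7b9603_alEV
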