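import Pool.Agent.Lib.MP_7b9603_alEV.Defs

/-!
# Even generators: the group algebra of `H × ℤ` (helper55)
-/

set_option autoImplicit false

namespace Pool.Agent.Lib.MP_7b9603_alEV

universe u w

section

variable {K : Type w} [Field K]

/-- Int.lean -/
theorem dom_prod_int {H : Type u} [Group H] (h : NoZeroDivisors (MonoidAlgebra K H)) :
    NoZeroDivisors (MonoidAlgebra K (H × Multiplicative ℤ)) := by
  have h1 : NoZeroDivisors (MonoidAlgebra (MonoidAlgebra K H) (Multiplicative ℤ)) := inferInstance
  let e : MonoidAlgebra K (H × Multiplicative ℤ) ≃+*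
      MonoidAlgebra (MonoidAlgebra K H) (Multiplicative ℤ) :=
    (MonoidAlgebra.domCongr K K (MulEquiv.prodComm (M := H)
      (N := Multiplicative ℤ))).toRingEquiv.trans MonoidAlgebra.curryRingEquiv
  exact e.injective.noZeroDivisors e (map_zero e) (map_mul e)

end

end Pool.Agent.Lib.MP_7b9603_alEV
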