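import Pool.Agent.Lib.MP_7b9603_alEV.Defs

/-!
# Even generators: the Magnus homomorphism
-/

set_option autoImplicit false

namespace Pool.Agent.Lib.MP_7b9603_alEV

open SPH Pool.Agent.Lib.MP_7b9603_alIL

universe u w

variable (K : Type w) [Field K] {B Q : Type u} [Group Q] [MulAction Q B]

/-- The unit `U c`. -/
noncomputable def mU (c : B) : (TS K B Q)ˣ := ⟨U K Q c, V K Q c, U_mul_V c, V_mul_U c⟩

/-- The Magnus homomorphism to the units. -/
noncomputable def magU : PE (MulAction.toPermHom Q B) →* (TS K B Q)ˣ :=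
  SemidirectProduct.lift (FreeGroup.lift (mU K)) (Cg K B).toHomUnits (by
    intro q
    apply FreeGroup.ext_hom
    intro b
    rw [MonoidHom.comp_apply, MonoidHom.comp_apply, MulEquiv.coe_toMonoidHom,
      MulEquiv.coe_toMonoidHom, pa_of, FreeGroup.lift_apply_of, FreeGroup.lift_apply_of,
      MulAut.conj_apply, eq_mul_inv_iff_mul_eq]
    apply Units.ext
    exact (Cg_mul_U q b).symm)

/-- The Magnus homomorphism. -/
noncomputable def mag : PE (MulAction.toPermHom Q B) →* TS K B Q := (Units.coeHom _).comp (magU K)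

theorem mag_of (b : B) : mag K (SemidirectProduct.inl (FreeGroup.of b) :
    PE (MulAction.toPermHom Q B)) = U K Q b := by
  rw [mag, MonoidHom.comp_apply, magU, SemidirectProduct.lift_inl, FreeGroup.lift_apply_of]
  rfl

theorem mag_of_inv (b : B) : mag K ((SemidirectProduct.inl (FreeGroup.of b))⁻¹ :
    PE (MulAction.toPermHom Q B)) = V K Q b := by
  rw [mag, MonoidHom.comp_apply, map_inv, magU, SemidirectProduct.lift_inl,
    FreeGroup.lift_apply_of]
  rfl

theorem mag_inr (q : Q) : mag K (SemidirectProduct.inr q : PE (MulAction.toPermHom Q B)) =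
    Cg K B q := by
  rw [mag, MonoidHom.comp_apply, magU, SemidirectProduct.lift_inr]
  rfl

end Pool.Agent.Lib.MP_7b9603_alEV
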