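import Pool.Agent.Lib.MP_7b9603_alEV.Indep
import Pool.Agent.Lib.MP_7b9603_alEV.Int

/-!
# Even generators: the extension by a free group on a set with an action
-/

set_option autoImplicit false

namespace Pool.Agent.Lib.MP_7b9603_alEV

open SPH Pool.Agent.Lib.MP_7b9603_alIL

universe u w

section

variable {B H Q D : Type u} [Group H] [Group Q] [MulAction Q D] (α : H →* Equiv.Perm B)
  (c : B → D) (t : Q) (ι : H →* Q)

/-- Elements together with their lists. -/
private inductive pe_Red : PE α → List D → Prop
  | base (h : H) : pe_Red (SemidirectProduct.inr h) []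
  | cons (b : B) (n : ℤ) (g : PE α) (l : List D) (hn : n ≠ 0) (hg : pe_Red g l)
      (hl : ∀ x ∈ l.head?, x ≠ c b) :
      pe_Red (SemidirectProduct.inl (FreeGroup.of b ^ n) * g)
        (c b :: (t ^ n • c b) :: l.map (fun x => t ^ n • x))

variable {α c t ι}

private theorem pe_comm_pow (hcomm : ∀ h, ι h * t = t * ι h) (h : H) (n : ℤ) :
    ι h * t ^ n = t ^ n * ι h := (show Commute (ι h) t from hcomm h).zpow_right n

private theorem pe_pa_zpow (q : H) (b : B) (n : ℤ) :
    pa α q (FreeGroup.of b ^ n) = FreeGroup.of (α q b) ^ n := by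
  rw [map_zpow, pa_of]

private theorem pe_mul_left (hcomm : ∀ h, ι h * t = t * ι h) (hc : ∀ h b, ι h • c b = c (α h b))
    {g : PE α} {l : List D} (hg : pe_Red α c t g l) (h : H) :
    pe_Red α c t (SemidirectProduct.inr h * g) (l.map (fun x => ι h • x)) := by
  induction hg with
  | base h' =>
    rw [← map_mul]
    exact pe_Red.base _
  | cons b n g l hn hg hl ih =>
    have h1 := pe_Red.cons (α h b) n _ _ hn ih (by
      intro x hx
      rw [List.head?_map, Option.mem_def, Option.map_eq_some_iff] at hx
      obtain ⟨y, hy, rfl⟩ := hx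
      rw [← hc]
      intro h2
      exact hl y hy (MulAction.injective _ h2))
    have e1 : (SemidirectProduct.inr h * (SemidirectProduct.inl (FreeGroup.of b ^ n) * g) : PE α) =
        SemidirectProduct.inl (FreeGroup.of (α h b) ^ n) * (SemidirectProduct.inr h * g) := by
      rw [← pe_pa_zpow, ← mul_assoc, ← mul_assoc]
      congr 1
      rw [SemidirectProduct.inl_aut]
      simp only [mul_assoc]
      rw [← map_mul, inv_mul_cancel, map_one, mul_one]
    rw [e1]
    convert h1 using 1
    simp only [List.map_cons, List.map_map, Function.comp_def, smul_smul,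
      pe_comm_pow hcomm h n, ← hc]

private theorem pe_exists (hinj : Function.Injective c) {g : PE α} {l : List D}
    (hg : pe_Red α c t g l) (b : B) (e : ℤ) :
    ∃ l', pe_Red α c t (SemidirectProduct.inl (FreeGroup.of b ^ e) * g) l' := by
  by_cases he : e = 0
  · rw [he, zpow_zero, map_one, one_mul]
    exact ⟨l, hg⟩
  cases hg with
  | base h' => exact ⟨_, pe_Red.cons b e _ [] he (pe_Red.base h') (by simp)⟩
  | cons b' n g l hn hg hl =>
    by_cases hb : b = b'
    · subst hb
      rw [← mul_assoc, ← map_mul, ← zpow_add]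
      by_cases hen : e + n = 0
      · rw [hen, zpow_zero, map_one, one_mul]
        exact ⟨l, hg⟩
      · exact ⟨_, pe_Red.cons b (e + n) g l hen hg hl⟩
    · refine ⟨_, pe_Red.cons b e _ _ he (pe_Red.cons b' n g l hn hg hl) ?_⟩
      intro x hx
      simp only [List.head?_cons, Option.mem_def, Option.some.injEq] at hx
      rw [← hx]
      intro h2
      exact hb (hinj h2).symm

private theorem pe_all (hinj : Function.Injective c) (g : PE α) : ∃ l, pe_Red α c t g l := by
  have key : ∀ w : FreeGroup B, ∀ g : PE α, (∃ l, pe_Red α c t g l) →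
      ∃ l, pe_Red α c t (SemidirectProduct.inl w * g) l := by
    intro w
    induction w using FreeGroup.induction_on with
    | C1 =>
      intro g hg
      rw [map_one, one_mul]
      exact hg
    | of b =>
      rintro g ⟨l, hg⟩
      have := pe_exists hinj hg b 1
      rwa [zpow_one] at this
    | inv_of b _ =>
      rintro g ⟨l, hg⟩
      have := pe_exists hinj hg b (-1)
      rwa [zpow_neg_one] at this
    | mul x y hx hy =>
      intro g hg
      rw [map_mul, mul_assoc]
      exact hx _ (hy _ hg)
  have h1 := key g.left (SemidirectProduct.inr g.right) ⟨_, pe_Red.base _⟩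
  rwa [SemidirectProduct.inl_left_mul_inr_right] at h1

private theorem pe_chain (hfree : ∀ b, ∀ n : ℤ, n ≠ 0 → t ^ n • c b ≠ c b) {g : PE α}
    {l : List D} (hg : pe_Red α c t g l) : l.IsChain (· ≠ ·) := by
  induction hg with
  | base h => exact List.IsChain.nil
  | cons b n g l hn hg hl ih =>
    have h2 : (l.map (fun x => t ^ n • x)).IsChain (· ≠ ·) := by
      rw [List.isChain_map]
      refine ih.imp ?_
      intro x y hxy h3
      exact hxy (MulAction.injective _ h3)
    have h3 : ((t ^ n • c b) :: l.map (fun x => t ^ n • x)).IsChain (· ≠ ·) := by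
      cases l with
      | nil => exact List.IsChain.singleton _
      | cons x l =>
        rw [List.map_cons] at h2 ⊢
        refine List.IsChain.cons_cons ?_ h2
        intro h4
        exact hl x (by simp) (MulAction.injective _ h4).symm
    exact List.IsChain.cons_cons (hfree b n hn).symm h3

private theorem pe_nil {g : PE α} (hg : pe_Red α c t g []) :
    ∃ h : H, g = SemidirectProduct.inr h := by
  cases hg with
  | base h => exact ⟨h, rfl⟩

variable (K : Type w) [Field K]

private noncomputable def pe_u (d : D) : (TS K D Q)ˣ := ⟨U K Q d, V K Q d, U_mul_V d, V_mul_U d⟩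

private noncomputable def pe_Cg : Q →* (TS K D Q)ˣ := (Cg K D).toHomUnits

private theorem pe_Cg_mul_u (q : Q) (d : D) :
    pe_Cg K q * pe_u K d = (pe_u K (q • d) : (TS K D Q)ˣ) * pe_Cg K q := by
  apply Units.ext
  exact Cg_mul_U q d

private noncomputable def pe_f (c : B → D) (t : Q) : FreeGroup B →* (TS K D Q)ˣ :=
  FreeGroup.lift fun b => pe_u K (c b) * pe_Cg K t * (pe_u K (c b))⁻¹

private theorem pe_compat (hcomm : ∀ h, ι h * t = t * ι h)
    (hc : ∀ h b, ι h • c b = c (α h b)) (q : H) :
    (pe_f K c t).comp (pa α q).toMonoidHom =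
      (MulAut.conj ((pe_Cg (D := D) K).comp ι q)).toMonoidHom.comp (pe_f K c t) := by
  apply FreeGroup.ext_hom
  intro b
  rw [MonoidHom.comp_apply, MonoidHom.comp_apply, MulEquiv.coe_toMonoidHom,
    MulEquiv.coe_toMonoidHom, pa_of, pe_f, FreeGroup.lift_apply_of, FreeGroup.lift_apply_of,
    MulAut.conj_apply, MonoidHom.comp_apply]
  have h1 := pe_Cg_mul_u K (ι q) (c b)
  rw [hc] at h1
  have h2 : pe_Cg (D := D) K (ι q) * pe_Cg K t = pe_Cg K t * pe_Cg K (ι q) := by
    rw [← map_mul, hcomm, map_mul]
  generalize pe_Cg (D := D) K (ι q) = x at *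
  generalize pe_u (Q := Q) K (c b) = y at *
  have h3 : pe_u (Q := Q) K (c (α q b)) = x * y * x⁻¹ := by
    rw [h1, mul_inv_cancel_right]
  rw [h3]
  generalize pe_Cg (D := D) K t = z at *
  have h4 : x⁻¹ * z = z * x⁻¹ := by
    rw [inv_mul_eq_iff_eq_mul, ← mul_assoc, h2, mul_inv_cancel_right]
  calc x * y * x⁻¹ * z * (x * y * x⁻¹)⁻¹ = x * y * (x⁻¹ * z) * x * y⁻¹ * x⁻¹ := by group
    _ = x * y * (z * x⁻¹) * x * y⁻¹ * x⁻¹ := by rw [h4]
    _ = x * (y * z * y⁻¹) * x⁻¹ := by group

private theorem pe_compat' (hcomm : ∀ h, ι h * t = t * ι h) (q : H) :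
    (FreeGroup.lift fun _ : B => t).comp (pa α q).toMonoidHom =
      (MulAut.conj (ι q)).toMonoidHom.comp (FreeGroup.lift fun _ : B => t) := by
  apply FreeGroup.ext_hom
  intro b
  rw [MonoidHom.comp_apply, MonoidHom.comp_apply, MulEquiv.coe_toMonoidHom,
    MulEquiv.coe_toMonoidHom, pa_of, FreeGroup.lift_apply_of, FreeGroup.lift_apply_of,
    MulAut.conj_apply, hcomm, mul_inv_cancel_right]

private theorem pe_abs (hcomm : ∀ h, ι h * t = t * ι h)
    (hc : ∀ h b, ι h • c b = c (α h b)) (hinj : Function.Injective c)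
    (hfree : ∀ b, ∀ n : ℤ, n ≠ 0 → t ^ n • c b ≠ c b) (hι : Function.Injective ι)
    (h : NoZeroDivisors (MonoidAlgebra K Q)) : NoZeroDivisors (MonoidAlgebra K (PE α)) := by
  set Θ : PE α →* TS K D Q := (Units.coeHom _).comp
    (SemidirectProduct.lift (pe_f K c t) ((pe_Cg K).comp ι) (pe_compat K hcomm hc)) with hΘ
  set φ : PE α →* Q := SemidirectProduct.lift (FreeGroup.lift fun _ : B => t) ι
    (pe_compat' hcomm) with hφ
  have hex := fun g : PE α => pe_all (t := t) hinj g
  choose l hl using hex
  refine indep (B := D) Θ φ l ?_ (fun g => pe_chain hfree (hl g)) ?_ h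
  · intro g
    have key : ∀ (g : PE α) (l : List D), pe_Red α c t g l →
        Θ g = P K Q true l * Cg K D (φ g) := by
      intro g l hg
      induction hg with
      | base h' =>
        rw [P, one_mul, hΘ, hφ, MonoidHom.comp_apply, SemidirectProduct.lift_inr,
          SemidirectProduct.lift_inr]
        rfl
      | cons b n g l hn hg hl ih =>
        have e1 : Θ (SemidirectProduct.inl (FreeGroup.of b ^ n)) =
            U K Q (c b) * Cg K D (t ^ n) * V K Q (c b) := by
          rw [hΘ, MonoidHom.comp_apply, SemidirectProduct.lift_inl, map_zpow, pe_f,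
            FreeGroup.lift_apply_of]
          have e2 : (pe_u (Q := Q) K (c b) * pe_Cg K t * (pe_u K (c b))⁻¹) ^ n =
              pe_u K (c b) * pe_Cg K (t ^ n) * (pe_u K (c b))⁻¹ := by
            rw [conj_zpow, map_zpow]
          rw [e2]
          rfl
        have e3 : φ (SemidirectProduct.inl (FreeGroup.of b ^ n)) = t ^ n := by
          rw [hφ, SemidirectProduct.lift_inl, map_zpow, FreeGroup.lift_apply_of]
        rw [map_mul, map_mul, ih, e1, e3, P, P, map_mul]
        have h2 := Cg_mul_V (K := K) (t ^ n) (c b)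
        have h3 := Cg_mul_P (K := K) (t ^ n) true l
        calc U K Q (c b) * Cg K D (t ^ n) * V K Q (c b) * (P K Q true l * Cg K D (φ g))
            = U K Q (c b) * (Cg K D (t ^ n) * V K Q (c b)) * (P K Q true l * Cg K D (φ g)) := by
              simp only [mul_assoc]
          _ = U K Q (c b) * V K Q (t ^ n • c b) * (Cg K D (t ^ n) * P K Q true l) *
              Cg K D (φ g) := by
              rw [h2]
              simp only [mul_assoc]
          _ = _ := by
              rw [h3]
              simp only [mul_assoc]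
    exact key g (l g) (hl g)
  · intro g h1 h2
    have h3 := hl g
    rw [h1] at h3
    obtain ⟨q, rfl⟩ := pe_nil h3
    rw [hφ, SemidirectProduct.lift_inr] at h2
    rw [hι (h2.trans (map_one ι).symm), map_one]

end

section

variable {B H : Type u} [Group H] (α : H →* Equiv.Perm B)

/-- The action of `H × ℤ` on `B × ℤ`. -/
@[reducible] private def pe_act :
    MulAction (H × Multiplicative ℤ) (B × Multiplicative ℤ) where
  smul q d := (α q.1 d.1, q.2 * d.2)
  one_smul d := by
    change (α 1 d.1, 1 * d.2) = d
    rw [map_one, one_mul]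
    rfl
  mul_smul p q d := by
    change (α (p.1 * q.1) d.1, p.2 * q.2 * d.2) = (α p.1 (α q.1 d.1), p.2 * (q.2 * d.2))
    rw [map_mul, mul_assoc]
    rfl

end

theorem dom_pe {K : Type w} [Field K] {B H : Type u} [Group H] (α : H →* Equiv.Perm B)
    (h : NoZeroDivisors (MonoidAlgebra K H)) : NoZeroDivisors (MonoidAlgebra K (PE α)) := by
  letI := pe_act α
  have hs : ∀ (q : H × Multiplicative ℤ) (d : B × Multiplicative ℤ),
      q • d = (α q.1 d.1, q.2 * d.2) := fun _ _ => rfl
  refine pe_abs (Q := H × Multiplicative ℤ) (D := B × Multiplicative ℤ)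
    (c := fun b => (b, 1)) (t := ((1 : H), Multiplicative.ofAdd (1 : ℤ)))
    (ι := MonoidHom.inl H (Multiplicative ℤ)) K ?_ ?_ ?_ ?_ ?_ (dom_prod_int h)
  · intro q
    ext <;> simp
  · intro q b
    rw [hs]
    simp
  · intro a b hab
    exact (Prod.ext_iff.1 hab).1
  · intro b n hn h1
    rw [hs] at h1
    have h2 := (Prod.ext_iff.1 h1).2
    simp only [Prod.pow_snd, mul_one] at h2
    apply hn
    have h3 := congrArg Multiplicative.toAdd h2
    simpa using h3
  · intro a b hab
    simpa using hab

end Pool.Agent.Lib.MP_7b9603_alEV
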